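import Mathlib

-- part MP_bacbeb_nt.Fin1
section

/-! Finiteness of the recurrences `n ∣ v * f^[k] n`: the rational function side. -/

set_option autoImplicit false

namespace Pool.Agent.MP_bacbeb_nt.Per

open Finset

def Ev {ι : Type} (s : Finset ι) (u : ι → ℚ) : ℚ := ∏ i ∈ s, (1 + u i) + ∏ i ∈ s, (1 - u i)

def Od {ι : Type} (s : Finset ι) (u : ι → ℚ) : ℚ := ∏ i ∈ s, (1 + u i) - ∏ i ∈ s, (1 - u i)

section
variable {ι : Type} [DecidableEq ι]

theorem ev_insert {s : Finset ι} {i : ι} (h : i ∉ s) (u : ι → ℚ) :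
    Ev (insert i s) u = Ev s u + u i * Od s u := by
  simp only [Ev, Od, prod_insert h]; ring

theorem od_insert {s : Finset ι} {i : ι} (h : i ∉ s) (u : ι → ℚ) :
    Od (insert i s) u = Od s u + u i * Ev s u := by
  simp only [Ev, Od, prod_insert h]; ring

theorem ev_mono (s : Finset ι) (u w : ι → ℚ) (h0 : ∀ i, 0 ≤ w i) (h : ∀ i, w i ≤ u i) :
    Ev s w ≤ Ev s u ∧ Od s w ≤ Od s u ∧ 2 ≤ Ev s w ∧ 0 ≤ Od s w := by
  induction s using Finset.induction_on with
  | empty => norm_num [Ev, Od]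
  | insert i s hi ih =>
    obtain ⟨a, b, c, d⟩ := ih
    rw [ev_insert hi, ev_insert hi, od_insert hi, od_insert hi]
    have hu : 0 ≤ u i := (h0 i).trans (h i)
    have e1 : w i * Od s w ≤ u i * Od s u := mul_le_mul (h i) b d hu
    have e2 : w i * Ev s w ≤ u i * Ev s u := mul_le_mul (h i) a (by linarith) hu
    have e3 : 0 ≤ w i * Od s w := mul_nonneg (h0 i) d
    have e4 : 0 ≤ w i * Ev s w := mul_nonneg (h0 i) (by linarith)
    exact ⟨by linarith, by linarith, by linarith, by linarith⟩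

theorem ev_strict (s : Finset ι) (u w : ι → ℚ) (h0 : ∀ i, 0 ≤ w i) (h : ∀ i, w i ≤ u i)
    {i j : ι} (hi : i ∈ s) (hj : j ∈ s) (hij : j ≠ i) (h1 : w i < u i) (h2 : 0 < u j) :
    Ev s w < Ev s u := by
  have hu : ∀ i, 0 ≤ u i := fun i => (h0 i).trans (h i)
  have hj' : j ∈ s.erase i := mem_erase.2 ⟨hij, hj⟩
  have p : 0 < Od (s.erase i) u := by
    obtain ⟨-, -, c, d⟩ := ev_mono ((s.erase i).erase j) u u hu fun _ => le_rfl
    rw [← insert_erase hj', od_insert (notMem_erase j _)]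
    have := mul_pos h2 (show 0 < Ev ((s.erase i).erase j) u by linarith)
    linarith
  obtain ⟨a, b, c, d⟩ := ev_mono (s.erase i) u w h0 h
  rw [← insert_erase hi, ev_insert (notMem_erase i _), ev_insert (notMem_erase i _)]
  have e1 : w i * Od (s.erase i) w ≤ w i * Od (s.erase i) u := mul_le_mul_of_nonneg_left b (h0 i)
  have e2 : w i * Od (s.erase i) u < u i * Od (s.erase i) u := mul_lt_mul_of_pos_right h1 p
  linarith

end

/-- The reciprocal, with value `0` at infinity. -/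
def rc (x : ℕ∞) : ℚ := (x.toNat : ℚ)⁻¹

theorem rc_nonneg (x : ℕ∞) : 0 ≤ rc x := by unfold rc; positivity

theorem rc_top : rc ⊤ = 0 := by simp [rc]

theorem rc_coe (p : ℕ) : rc p = (p : ℚ)⁻¹ := by simp [rc]

theorem rc_pos {x : ℕ∞} (h0 : x ≠ 0) (h1 : x ≠ ⊤) : 0 < rc x := by
  obtain ⟨p, rfl⟩ := ENat.ne_top_iff_exists.1 h1
  have : p ≠ 0 := fun h => h0 (by simp [h])
  rw [rc_coe]; positivity

theorem rc_lt {x y : ℕ∞} (h0 : x ≠ 0) (h : x < y) : rc y < rc x := by
  by_cases hy : y = ⊤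
  · rw [hy, rc_top]; exact rc_pos h0 h.ne_top
  obtain ⟨p, rfl⟩ := ENat.ne_top_iff_exists.1 h.ne_top
  obtain ⟨q, rfl⟩ := ENat.ne_top_iff_exists.1 hy
  have hp : 0 < p := Nat.pos_of_ne_zero fun h => h0 (by simp [h])
  rw [rc_coe, rc_coe]
  exact inv_strictAnti₀ (by exact_mod_cast hp) (by exact_mod_cast h)

theorem rc_le {x y : ℕ∞} (h0 : x ≠ 0) (h : x ≤ y) : rc y ≤ rc x := by
  rcases h.lt_or_eq with h | h
  · exact (rc_lt h0 h).le
  · rw [h]

/-- The level sets of the product of the ratios. -/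
def Lvl (k W : ℕ) (c : ℚ) : Set (Fin k → Fin W → ℕ∞) :=
  {x | (∀ j i, x j i ≠ 0) ∧ (∀ j, ∃ i i', i ≠ i' ∧ x j i ≠ ⊤ ∧ x j i' ≠ ⊤) ∧
    ∏ j, Ev univ (fun i => rc (x j i)) = c}

theorem lvl_finite (k W : ℕ) (c : ℚ) : (Lvl k W c).Finite := by
  refine WellQuasiOrderedLE.finite_of_isAntichain ?_
  rintro x ⟨x0, x1, x2⟩ y ⟨-, -, y2⟩ hne hle
  obtain ⟨j, hj⟩ := Function.ne_iff.1 hne
  obtain ⟨i, hi⟩ := Function.ne_iff.1 hj
  have hlt : x j i < y j i := lt_of_le_of_ne (hle j i) hi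
  have key : ∀ l, Ev univ (fun i => rc (y l i)) ≤ Ev univ (fun i => rc (x l i)) ∧
      0 < Ev univ (fun i => rc (y l i)) := fun l => by
    obtain ⟨a, -, b, -⟩ := ev_mono univ (fun i => rc (x l i)) (fun i => rc (y l i))
      (fun _ => rc_nonneg _) fun i => rc_le (x0 l i) (hle l i)
    exact ⟨a, by linarith⟩
  obtain ⟨i', h1, h2⟩ : ∃ i', i' ≠ i ∧ x j i' ≠ ⊤ := by
    obtain ⟨a, b, hab, ha, hb⟩ := x1 j
    by_cases e : a = i
    · exact ⟨b, fun h => hab (e.trans h.symm), hb⟩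
    · exact ⟨a, e, ha⟩
  have := prod_lt_prod (s := univ) (fun l _ => (key l).2) (fun l _ => (key l).1)
    ⟨j, mem_univ j, ev_strict univ (fun i => rc (x j i)) (fun i => rc (y j i))
      (fun _ => rc_nonneg _) (fun i => rc_le (x0 j i) (hle j i)) (mem_univ i) (mem_univ i') h1
      (rc_lt (x0 j i) hlt) (rc_pos (x0 j i') h2)⟩
  rw [x2, y2] at this
  exact lt_irrefl _ this

/-- A finite set of positive integers, listed with padding by infinity. -/
theorem exists_enc (W : ℕ) (P : Finset ℕ) (hW : P.card ≤ W) (h2 : 2 ≤ P.card) (h0 : 0 ∉ P) :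
    ∃ x : Fin W → ℕ∞, (∀ i, x i ≠ 0) ∧ (∃ i i', i ≠ i' ∧ x i ≠ ⊤ ∧ x i' ≠ ⊤) ∧
      (∀ p ∈ P, ∃ i, x i = p) ∧ Ev univ (fun i => rc (x i)) = Ev P fun p => (p : ℚ)⁻¹ := by
  classical
  let e := P.equivFin.symm
  let x : Fin W → ℕ∞ := fun i => if h : (i : ℕ) < P.card then ((e ⟨i, h⟩ : P) : ℕ) else ⊤
  have hx : ∀ a : Fin P.card, x (Fin.castLE hW a) = ((e a : P) : ℕ) := fun a => by
    simp [x, a.2]
  have hp : ∀ g : ℚ → ℚ, g 0 = 1 → ∏ i, g (rc (x i)) = ∏ p ∈ P, g (p : ℚ)⁻¹ := fun g hg => by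
    rw [← prod_coe_sort P, ← e.prod_comp]
    symm
    refine prod_of_injOn (Fin.castLE hW) (Fin.castLE_injective hW).injOn
      (fun _ _ => mem_coe.2 (mem_univ _)) (fun i _ hi => ?_) fun a _ => by rw [hx, rc_coe]
    have : ¬ (i : ℕ) < P.card := fun h => hi ⟨⟨i, h⟩, mem_coe.2 (mem_univ _), Fin.ext rfl⟩
    simp only [x, dif_neg this, rc_top, hg]
  refine ⟨x, fun i => ?_, ⟨Fin.castLE hW ⟨0, by omega⟩, Fin.castLE hW ⟨1, by omega⟩,
    fun h => by simpa using congrArg Fin.val h, by rw [hx]; simp, by rw [hx]; simp⟩,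
    fun p hp => ⟨Fin.castLE hW (e.symm ⟨p, hp⟩), by rw [hx]; simp⟩, ?_⟩
  · by_cases h : (i : ℕ) < P.card
    · simp only [x, dif_pos h]
      intro k
      have : ((e ⟨i, h⟩ : P) : ℕ) = 0 := by exact_mod_cast k
      exact h0 (this ▸ (e ⟨i, h⟩).2)
    · simp [x, dif_neg h]
  · unfold Ev
    rw [hp (fun a => 1 + a) (by simp), hp (fun a => 1 - a) (by simp)]

/-- Dickson type bound: the primes are bounded. -/
theorem exists_bound (k W : ℕ) (c : ℚ) : ∃ B : ℕ, ∀ P : Fin k → Finset ℕ,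
    (∀ j, (P j).card ≤ W ∧ 2 ≤ (P j).card ∧ 0 ∉ P j) →
    ∏ j, Ev (P j) (fun p => (p : ℚ)⁻¹) = c → ∀ j, ∀ p ∈ P j, p ≤ B := by
  have hf : (⋃ x ∈ Lvl k W c, ⋃ j, ⋃ i, {(x j i).toNat}).Finite :=
    (lvl_finite k W c).biUnion fun x _ => Set.finite_iUnion fun j => Set.finite_iUnion fun i =>
      Set.finite_singleton _
  obtain ⟨B, hB⟩ := hf.bddAbove
  refine ⟨B, fun P hP hc j p hp => hB ?_⟩
  choose x h1 h2 h3 h4 using fun j => exists_enc W (P j) (hP j).1 (hP j).2.1 (hP j).2.2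
  obtain ⟨i, hi⟩ := h3 j p hp
  simp only [Set.mem_iUnion]
  exact ⟨x, ⟨h1, h2, by simp only [h4, hc]⟩, j, i, by simp [hi]⟩

end Pool.Agent.MP_bacbeb_nt.Per

end

-- part MP_bacbeb_nt.Fin2
section

/-! Finiteness of the recurrences `n ∣ v * f^[k] n`: the arithmetic side. -/

set_option autoImplicit false

namespace Pool.Agent.MP_bacbeb_nt.Per

open Finset

def psi (n : ℕ) : ℕ := ∏ p ∈ n.primeFactors, p ^ (n.factorization p - 1) * (p + 1)

def avg (n : ℕ) : ℕ := (Nat.totient n + psi n) / 2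

/-- Twice the ratio `avg n / n`. -/
def rat (n : ℕ) : ℚ := Ev n.primeFactors fun p => (p : ℚ)⁻¹

theorem fac_pos {n p : ℕ} (hp : p ∈ n.primeFactors) : 1 ≤ n.factorization p :=
  Nat.pos_of_ne_zero (Finsupp.mem_support_iff.1 (by rwa [Nat.support_factorization]))

theorem psi_eq {n : ℕ} (hn : n ≠ 0) :
    (psi n : ℚ) = n * ∏ p ∈ n.primeFactors, (1 + (p : ℚ)⁻¹) := by
  have h := Nat.prod_factorization_pow_eq_self hn
  rw [Finsupp.prod, Nat.support_factorization] at h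
  have h' : (n : ℚ) = ∏ p ∈ n.primeFactors, (p : ℚ) ^ n.factorization p := by
    exact_mod_cast h.symm
  rw [h', ← prod_mul_distrib, psi]
  push_cast
  refine prod_congr rfl fun p hp => ?_
  have h0 : (p : ℚ) ≠ 0 := by exact_mod_cast (Nat.prime_of_mem_primeFactors hp).ne_zero
  obtain ⟨a, ha⟩ := Nat.exists_eq_add_of_le' (fac_pos hp)
  rw [ha, Nat.add_sub_cancel, pow_succ]
  field_simp

/-- The guaranteed power of two. -/
def ex2 (n : ℕ) : ℕ := ∑ p ∈ n.primeFactors, if p = 2 then n.factorization 2 - 1 else 1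

theorem ex2_dvd {n : ℕ} (hn : n ≠ 0) : 2 ^ ex2 n ∣ Nat.totient n ∧ 2 ^ ex2 n ∣ psi n := by
  rw [Nat.totient_eq_prod_factorization hn, Finsupp.prod, Nat.support_factorization, psi, ex2,
    ← prod_pow_eq_pow_sum]
  constructor <;> refine prod_dvd_prod_of_dvd _ _ fun p hp => ?_ <;> split_ifs with h
  · subst h; exact Dvd.intro _ rfl
  · obtain ⟨a, ha⟩ := (Nat.prime_of_mem_primeFactors hp).odd_of_ne_two h
    exact Dvd.dvd.mul_left ⟨a, by omega⟩ _
  · subst h; exact Dvd.intro _ rfl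
  · obtain ⟨a, ha⟩ := (Nat.prime_of_mem_primeFactors hp).odd_of_ne_two h
    exact Dvd.dvd.mul_left ⟨a + 1, by omega⟩ _

theorem ex2_ge (n : ℕ) :
    n.primeFactors.card + n.factorization 2 ≤ ex2 n + 2 ∧ n.primeFactors.card ≤ ex2 n + 1 := by
  unfold ex2
  by_cases h : 2 ∈ n.primeFactors
  · have h1 := fac_pos h
    rw [← add_sum_erase _ _ h, if_pos rfl,
      sum_congr rfl fun p hp => if_neg (mem_erase.1 hp).1, ← card_erase_add_one h]
    simp only [sum_const, smul_eq_mul, mul_one]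
    omega
  · have h1 : n.factorization 2 = 0 := by
      rwa [← Nat.support_factorization, Finsupp.notMem_support_iff] at h
    rw [sum_congr rfl fun p hp => if_neg (fun e : p = 2 => h (e ▸ hp))]
    simp only [sum_const, smul_eq_mul, mul_one]
    omega

section
variable {n : ℕ} (h : 2 ≤ n.primeFactors.card)
include h

theorem ne_zero_of_card : n ≠ 0 := by
  rintro rfl
  simp at h

theorem two_mul_avg : 2 * avg n = Nat.totient n + psi n := by
  have hn := ne_zero_of_card h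
  have h1 : 2 ∣ 2 ^ ex2 n := dvd_pow_self 2 (by have := (ex2_ge n).2; omega)
  exact Nat.mul_div_cancel' (dvd_add (h1.trans (ex2_dvd hn).1) (h1.trans (ex2_dvd hn).2))

theorem avg_eq : (2 : ℚ) * avg n = n * rat n := by
  have := congrArg (Nat.cast : ℕ → ℚ) (two_mul_avg h)
  push_cast at this
  rw [this, psi_eq (ne_zero_of_card h), Nat.totient_eq_mul_prod_factors, rat, Ev]
  ring

omit h in
theorem rat_bounds (n : ℕ) : 2 ≤ rat n ∧ rat n ≤ 2 * (3 / 2) ^ n.primeFactors.card := by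
  obtain ⟨-, -, a, b⟩ := ev_mono n.primeFactors (fun p => (p : ℚ)⁻¹) (fun p => (p : ℚ)⁻¹)
    (fun _ => by positivity) fun _ => le_rfl
  refine ⟨a, ?_⟩
  have c : ∏ p ∈ n.primeFactors, (1 + (p : ℚ)⁻¹) ≤ (3 / 2) ^ n.primeFactors.card := by
    rw [← prod_const]
    refine prod_le_prod (fun _ _ => by positivity) fun p hp => ?_
    have : (2 : ℚ) ≤ p := by exact_mod_cast (Nat.prime_of_mem_primeFactors hp).two_le
    have := inv_anti₀ (by norm_num) this
    linarith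
  unfold rat Ev Od at *
  linarith

theorem avg_ne_zero : avg n ≠ 0 := by
  intro e
  have h1 := avg_eq h
  have h2 := (rat_bounds n).1
  have h3 : (0 : ℚ) < n := by exact_mod_cast Nat.pos_of_ne_zero (ne_zero_of_card h)
  rw [e] at h1
  have := mul_pos h3 (show 0 < rat n by linarith)
  simp only [Nat.cast_zero, mul_zero] at h1
  linarith

theorem avg_val : n.primeFactors.card + n.factorization 2 ≤ (avg n).factorization 2 + 3 := by
  have hn := ne_zero_of_card h
  have h0 := avg_ne_zero h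
  have h1 : 2 ^ ex2 n ∣ 2 * avg n := by
    rw [two_mul_avg h]; exact dvd_add (ex2_dvd hn).1 (ex2_dvd hn).2
  rw [Nat.prime_two.pow_dvd_iff_le_factorization (by omega),
    Nat.factorization_mul two_ne_zero h0, Finsupp.add_apply,
    Nat.prime_two.factorization_self] at h1
  have := (ex2_ge n).1
  omega

end

/-- The first `k` terms of the orbit have at least two prime factors. -/
def Live (k n : ℕ) : Prop := ∀ j < k, 2 ≤ (avg^[j] n).primeFactors.card

theorem Live.mono {k l n : ℕ} (h : Live k n) (hl : l ≤ k) : Live l n :=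
  fun j hj => h j (hj.trans_le hl)

theorem iter_facts {n : ℕ} (hn : n ≠ 0) (k : ℕ) (h : Live k n) : avg^[k] n ≠ 0 ∧
    (2 : ℚ) ^ k * (avg^[k] n : ℕ) = n * ∏ j ∈ range k, rat (avg^[j] n) ∧
    ∑ j ∈ range k, (avg^[j] n).primeFactors.card + n.factorization 2 ≤
      (avg^[k] n).factorization 2 + 3 * k := by
  induction k with
  | zero => simp [hn]
  | succ k ih =>
    obtain ⟨-, a, b⟩ := ih (h.mono (Nat.le_succ k))
    have hk := h k (Nat.lt_succ_self k)
    rw [Function.iterate_succ_apply', prod_range_succ, sum_range_succ]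
    refine ⟨avg_ne_zero hk, ?_, ?_⟩
    · rw [pow_succ, mul_assoc, avg_eq hk, ← mul_assoc, a, mul_assoc]
    · have := avg_val hk
      omega

theorem weight_bound {n k v T : ℕ} (hn : n ≠ 0) (hv : v ≠ 0) (h : Live k n)
    (hT : v * avg^[k] n = n * T) :
    ∑ j ∈ range k, (avg^[j] n).primeFactors.card ≤ 3 * (8 ^ k * v) ∧
      T ≤ v * 2 ^ (3 * (8 ^ k * v)) ∧
      ∏ j ∈ range k, rat (avg^[j] n) = 2 ^ k * T / v := by
  obtain ⟨a, b, c⟩ := iter_facts hn k h
  generalize hW : ∑ j ∈ range k, (avg^[j] n).primeFactors.card = W at c ⊢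
  have hT0 : T ≠ 0 := by
    rintro rfl
    exact mul_ne_zero hv a (by simpa using hT)
  have hn' : (0 : ℚ) < n := by exact_mod_cast Nat.pos_of_ne_zero hn
  have hv' : (0 : ℚ) < v := by exact_mod_cast Nat.pos_of_ne_zero hv
  have hT' : (v : ℚ) * (avg^[k] n : ℕ) = n * T := by exact_mod_cast hT
  have e : ∏ j ∈ range k, rat (avg^[j] n) = 2 ^ k * T / v := by
    rw [eq_div_iff hv'.ne']
    refine mul_left_cancel₀ hn'.ne' ?_
    rw [← mul_assoc, ← b]
    linear_combination (2 : ℚ) ^ k * hT'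
  have e1 : ∏ j ∈ range k, rat (avg^[j] n) ≤ 2 ^ k * (3 / 2) ^ W := by
    rw [← hW, ← prod_pow_eq_pow_sum]
    calc _ ≤ ∏ j ∈ range k, (2 * (3 / 2 : ℚ) ^ (avg^[j] n).primeFactors.card) :=
          prod_le_prod (fun j _ => by have := (rat_bounds (avg^[j] n)).1; linarith)
            fun j _ => (rat_bounds _).2
      _ = _ := by rw [prod_mul_distrib, prod_const, card_range]
  have e2 : (T : ℚ) ≤ v * (3 / 2) ^ W := by
    rw [e, div_le_iff₀ hv', mul_assoc] at e1
    have := le_of_mul_le_mul_left e1 (by positivity)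
    linarith
  have e3 : W ≤ T.factorization 2 + 3 * k := by
    have := congrArg (fun x => x.factorization 2) hT
    simp only [Nat.factorization_mul hv a, Nat.factorization_mul hn hT0, Finsupp.add_apply] at this
    omega
  have e4 : 2 ^ W ≤ T * 8 ^ k := by
    calc 2 ^ W ≤ 2 ^ (T.factorization 2 + 3 * k) := Nat.pow_le_pow_right (by norm_num) e3
      _ = 2 ^ T.factorization 2 * 8 ^ k := by rw [pow_add, pow_mul]; rfl
      _ ≤ _ := Nat.mul_le_mul_right _ (Nat.ordProj_le 2 hT0)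
  have e5 : (4 / 3 : ℚ) ^ W ≤ 8 ^ k * v := by
    have e6 : (2 : ℚ) ^ W ≤ T * 8 ^ k := by exact_mod_cast e4
    have e7 : (2 : ℚ) ^ W = (4 / 3) ^ W * (3 / 2) ^ W := by rw [← mul_pow]; norm_num
    have e8 : (T : ℚ) * 8 ^ k ≤ v * (3 / 2) ^ W * 8 ^ k :=
      mul_le_mul_of_nonneg_right e2 (by positivity)
    refine le_of_mul_le_mul_right ?_ (show (0 : ℚ) < (3 / 2) ^ W by positivity)
    linarith
  have e9 : W ≤ 3 * (8 ^ k * v) := by
    have := one_add_mul_le_pow (show (-2 : ℚ) ≤ 1 / 3 by norm_num) W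
    have e10 : (W : ℚ) ≤ 3 * (8 ^ k * v) := by
      norm_num at this
      linarith
    exact_mod_cast e10
  refine ⟨e9, ?_, e⟩
  have e11 : (3 / 2 : ℚ) ^ W ≤ 2 ^ (3 * (8 ^ k * v)) :=
    (pow_le_pow_left₀ (by norm_num) (by norm_num) W).trans
      (pow_le_pow_right₀ (by norm_num) e9)
  have : (T : ℚ) ≤ v * 2 ^ (3 * (8 ^ k * v)) := e2.trans (mul_le_mul_of_nonneg_left e11 hv'.le)
  exact_mod_cast this

/-- The primes are bounded in terms of `k` and `v`. -/
theorem primes_bound (k v : ℕ) (hv : v ≠ 0) : ∃ B : ℕ, ∀ n, n ≠ 0 → Live k n →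
    n ∣ v * avg^[k] n → ∀ j < k, ∀ p ∈ (avg^[j] n).primeFactors, p ≤ B := by
  choose B hB using fun T : ℕ => exists_bound k (3 * (8 ^ k * v)) (2 ^ k * T / v)
  refine ⟨(range (v * 2 ^ (3 * (8 ^ k * v)) + 1)).sup B, fun n hn h ⟨T, hT⟩ j hj p hp => ?_⟩
  obtain ⟨a, b, c⟩ := weight_bound hn hv h hT
  refine (hB T (fun j => (avg^[j] n).primeFactors) (fun j => ⟨?_, h j j.2, fun e => ?_⟩) ?_
    ⟨j, hj⟩ p hp).trans (le_sup (mem_range.2 (Nat.lt_succ_of_le b)))
  · exact (single_le_sum (f := fun j => (avg^[j] n).primeFactors.card)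
      (fun _ _ => Nat.zero_le _) (mem_range.2 j.2)).trans a
  · exact Nat.not_prime_zero (Nat.prime_of_mem_primeFactors e)
  · rw [← c, prod_range]
    rfl

theorem scale {k m n s : ℕ} (hm : m ≠ 0) (hn : n ≠ 0) (h1 : Live k m) (h2 : Live k n)
    (e : ∀ j < k, (avg^[j] m).primeFactors = (avg^[j] n).primeFactors) (hs : n = s * m) :
    ∀ j ≤ k, avg^[j] n = s * avg^[j] m := by
  intro j hj
  have a := (iter_facts hm j (h1.mono hj)).2.1
  have b := (iter_facts hn j (h2.mono hj)).2.1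
  have c : ∏ i ∈ range j, rat (avg^[i] m) = ∏ i ∈ range j, rat (avg^[i] n) :=
    prod_congr rfl fun i hi => by rw [rat, rat, e i ((mem_range.1 hi).trans_le hj)]
  have hs' : (n : ℚ) = s * m := by exact_mod_cast hs
  have d : ((avg^[j] n : ℕ) : ℚ) = s * (avg^[j] m : ℕ) := by
    refine mul_left_cancel₀ (show (2 : ℚ) ^ j ≠ 0 by positivity) ?_
    rw [b, ← c, hs']
    linear_combination (-s : ℚ) * a
  exact_mod_cast d

theorem finite_min (k v : ℕ) (hk : 0 < k) (hv : v ≠ 0) : ∃ F : Finset ℕ,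
    (∀ m ∈ F, m ≠ 0 ∧ Live k m ∧ m ∣ v * avg^[k] m) ∧ ∀ n, n ≠ 0 → Live k n →
    n ∣ v * avg^[k] n → ∃ m ∈ F, m ∣ n ∧
      ∀ j < k, (avg^[j] m).primeFactors = (avg^[j] n).primeFactors := by
  classical
  obtain ⟨B, hB⟩ := primes_bound k v hv
  let Sol : ℕ → Prop := fun n => n ≠ 0 ∧ Live k n ∧ n ∣ v * avg^[k] n
  let R : ℕ → ℕ → Prop := fun m n => m ∣ n ∧
    ∀ j < k, (avg^[j] m).primeFactors = (avg^[j] n).primeFactors
  let M : Set ℕ := {m | Sol m ∧ ∀ m', Sol m' → R m' m → m' = m}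
  let τ : ℕ → Fin k → Finset ℕ := fun n j => (avg^[j] n).primeFactors
  let g : ℕ → Fin (B + 1) → ℕ := fun n i => n.factorization i
  have hg : ∀ a b, Sol a → Sol b → g a ≤ g b → a ∣ b := fun a b ha hb hab => by
    refine (Nat.factorization_prime_le_iff_dvd ha.1 hb.1).1 fun p _ => ?_
    by_cases hp : p ∈ a.primeFactors
    · exact hab ⟨p, Nat.lt_succ_of_le (hB a ha.1 ha.2.1 ha.2.2 0 hk p hp)⟩
    · rw [← Nat.support_factorization, Finsupp.notMem_support_iff] at hp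
      omega
  have hM : M.Finite := by
    refine Set.Finite.of_finite_fibers τ ?_ fun t _ => ?_
    · refine (Set.Finite.pi' fun _ : Fin k => ((range (B + 1)).powerset.finite_toSet)).subset ?_
      rintro _ ⟨m, hm, rfl⟩ j
      exact mem_coe.2 (mem_powerset.2 fun p hp => mem_range.2
        (Nat.lt_succ_of_le (hB m hm.1.1 hm.1.2.1 hm.1.2.2 j j.2 p hp)))
    · have key : ∀ a ∈ M ∩ τ ⁻¹' {t}, ∀ b ∈ M ∩ τ ⁻¹' {t}, g a ≤ g b → a = b :=
        fun a ha b hb hab => hb.1.2 a ha.1.1 ⟨hg a b ha.1.1 hb.1.1 hab, fun j hj =>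
          congrFun ((show τ a = t from ha.2).trans (show τ b = t from hb.2).symm) ⟨j, hj⟩⟩
      refine Set.Finite.of_finite_image (f := g) (WellQuasiOrderedLE.finite_of_isAntichain ?_)
        fun a ha b hb e => key a ha b hb e.le
      rintro _ ⟨a, ha, rfl⟩ _ ⟨b, hb, rfl⟩ hne hle
      exact hne (congrArg g (key a ha b hb hle))
  refine ⟨hM.toFinset, fun m hm => (hM.mem_toFinset.1 hm).1, fun n hn h1 h2 => ?_⟩
  have ex : ∃ m, Sol m ∧ R m n := ⟨n, ⟨hn, h1, h2⟩, dvd_rfl, fun _ _ => rfl⟩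
  obtain ⟨a, b⟩ := Nat.find_spec ex
  refine ⟨Nat.find ex, hM.mem_toFinset.2 ⟨a, fun m' c d => ?_⟩, b⟩
  exact le_antisymm (Nat.le_of_dvd (Nat.pos_of_ne_zero a.1) d.1)
    (Nat.find_min' ex ⟨c, d.1.trans b.1, fun j hj => (d.2 j hj).trans (b.2 j hj)⟩)

theorem live_iff {k n : ℕ} (hn : n ≠ 0) :
    Live k n ↔ ∀ j < k, avg^[j] n ≠ 1 ∧ ¬ IsPrimePow (avg^[j] n) := by
  constructor
  · intro h j hj
    have := h j hj
    refine ⟨fun e => by simp [e] at this, fun e => ?_⟩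
    rw [isPrimePow_iff_card_primeFactors_eq_one] at e
    omega
  · intro h
    induction k with
    | zero => exact fun j hj => absurd hj (Nat.not_lt_zero j)
    | succ k ih =>
      have hk := ih fun j hj => h j (hj.trans (Nat.lt_succ_self k))
      intro j hj
      rcases (Nat.lt_succ_iff.1 hj).lt_or_eq with e | rfl
      · exact hk j e
      have h0 := (iter_facts hn j hk).1
      obtain ⟨h1, h2⟩ := h j hj
      rw [isPrimePow_iff_card_primeFactors_eq_one] at h2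
      have : (avg^[j] n).primeFactors.card ≠ 0 := fun e => by
        rcases Nat.primeFactors_eq_empty.1 (card_eq_zero.1 e) with e | e
        exacts [h0 e, h1 e]
      omega

end Pool.Agent.MP_bacbeb_nt.Per

end
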