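import Pool.Agent.MP_bacbeb_nt.Mg.Ok2

-- part MP_bacbeb_nt.Ok3
section

set_option autoImplicit false
set_option maxRecDepth 100000

namespace Pool.Agent.MP_bacbeb_nt

lemma ok_t11000 : allT (ce root) t11000 = true := by decide +kernel
lemma ok_t11001 : allT (ce root) t11001 = true := by decide +kernel
lemma ok_t11010 : allT (ce root) t11010 = true := by decide +kernel
lemma ok_t11011 : allT (ce root) t11011 = true := by decide +kernel
lemma ok_t11100 : allT (ce root) t11100 = true := by decide +kernel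
lemma ok_t11101 : allT (ce root) t11101 = true := by decide +kernel
lemma ok_t11110 : allT (ce root) t11110 = true := by decide +kernel
lemma ok_t11111 : allT (ce root) t11111 = true := by decide +kernel

end Pool.Agent.MP_bacbeb_nt

end

-- part MP_bacbeb_nt.OkAll
section

set_option autoImplicit false
set_option maxRecDepth 100000

namespace Pool.Agent.MP_bacbeb_nt

lemma ok_root : allT (ce root) root = true :=
  (allT_node _ _ _ _ (by decide +kernel) (allT_node _ _ _ _ (by decide +kernel) (allT_node _ _ _ _ (by decide +kernel) (allT_node _ _ _ _ (by decide +kernel) (allT_node _ _ _ _ (by decide +kernel) ok_t00000 ok_t00001) (allT_node _ _ _ _ (by decide +kernel) ok_t00010 ok_t00011)) (allT_node _ _ _ _ (by decide +kernel) (allT_node _ _ _ _ (by decide +kernel) ok_t00100 ok_t00101) (allT_node _ _ _ _ (by decide +kernel) ok_t00110 ok_t00111))) (allT_node _ _ _ _ (by decide +kernel) (allT_node _ _ _ _ (by decide +kernel) (allT_node _ _ _ _ (by decide +kernel) ok_t01000 ok_t01001)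 (allT_node _ _ _ _ (by decide +kernel) ok_t01010 ok_t01011)) (allT_node _ _ _ _ (by decide +kernel) (allT_node _ _ _ _ (by decide +kernel) ok_t01100 ok_t01101) (allT_node _ _ _ _ (by decide +kernel) ok_t01110 ok_t01111)))) (allT_node _ _ _ _ (by decide +kernel) (allT_node _ _ _ _ (by decide +kernel) (allT_node _ _ _ _ (by decide +kernel) (allT_node _ _ _ _ (by decide +kernel) ok_t10000 ok_t10001) (allT_node _ _ _ _ (by decide +kernel) ok_t10010 ok_t10011)) (allT_node _ _ _ _ (by decide +kernel) (allT_node _ _ _ _ (by decide +kernel) ok_t10100 ok_t10101) (allT_node _ _ _ _ (by decide +kernel) ok_t10110 ok_t10111))) (allT_node _ _ _ _ (by decide +kernel) (allT_node _ _ _ _ (by decide +kernel) (allT_node _ _ _ _ (by decide +kernel) ok_t11000 ok_t11001) (allT_node _ _ _ _ (by decide +kernel) ok_t11010 ok_t11011)) (allT_node _ _ _ _ (by decide +kernel) (allT_node _ _ _ _ (by decide +kernel) ok_t11100 ok_t11101) (allT_node _ _ _ _ (by decide +kernel) ok_t11110 ok_t11111)))))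

lemma ok_start : allR (start root) 10 0 = true := by decide +kernel

end Pool.Agent.MP_bacbeb_nt

end

-- part MP_bacbeb_nt.Main
section

set_option autoImplicit false

namespace Pool.Agent.MP_bacbeb_nt

theorem good_smooth (a b c e m : ℕ) (h0 : 1 ≤ m) (h1 : m ≤ 1000) :
    Good (2 ^ a * 3 ^ b * 5 ^ c * 7 ^ e * m) := by
  obtain ⟨a2, m2, n2, e2⟩ := Nat.exists_eq_pow_mul_and_not_dvd (by omega : m ≠ 0) 2 (by norm_num)
  have z2 : m2 ≠ 0 := by rintro rfl; simp at n2
  obtain ⟨a3, m3, n3, e3⟩ := Nat.exists_eq_pow_mul_and_not_dvd z2 3 (by norm_num)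
  have z3 : m3 ≠ 0 := by rintro rfl; simp at n3
  obtain ⟨a5, m5, n5, e5⟩ := Nat.exists_eq_pow_mul_and_not_dvd z3 5 (by norm_num)
  have z5 : m5 ≠ 0 := by rintro rfl; simp at n5
  obtain ⟨a7, m7, n7, e7⟩ := Nat.exists_eq_pow_mul_and_not_dvd z5 7 (by norm_num)
  have d5 : m7 ∣ m5 := Dvd.intro_left _ e7.symm
  have d3 : m7 ∣ m3 := d5.trans (Dvd.intro_left _ e5.symm)
  have d2 : m7 ∣ m2 := d3.trans (Dvd.intro_left _ e3.symm)
  have d1 : m7 ∣ m := d2.trans (Dvd.intro_left _ e2.symm)
  have hle : m7 ≤ 1000 := (Nat.le_of_dvd (by omega) d1).trans h1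
  have c2 : Nat.Coprime m7 2 :=
    ((Nat.Prime.coprime_iff_not_dvd Nat.prime_two).2 fun h => n2 (h.trans d2)).symm
  have c3 : Nat.Coprime m7 3 :=
    ((Nat.Prime.coprime_iff_not_dvd Nat.prime_three).2 fun h => n3 (h.trans d3)).symm
  have c5 : Nat.Coprime m7 5 :=
    ((Nat.Prime.coprime_iff_not_dvd (by norm_num)).2 fun h => n5 (h.trans d5)).symm
  have c7 : Nat.Coprime m7 7 := ((Nat.Prime.coprime_iff_not_dvd (by norm_num)).2 n7).symm
  have hc : Nat.Coprime m7 (2 * 3 * 5 * 7) :=
    ((c2.mul_right c3).mul_right c5).mul_right c7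
  have := main_start ok_root ok_start (a + a2) (b + a3) (c + a5) (e + a7) m7 hle hc
  have en : 2 ^ a * 3 ^ b * 5 ^ c * 7 ^ e * m =
      2 ^ (a + a2) * (3 ^ (b + a3) * (5 ^ (c + a5) * (7 ^ (e + a7) * m7))) := by
    rw [e2, e3, e5, e7]; ring
  rw [en]; exact this

end Pool.Agent.MP_bacbeb_nt

end
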