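import Pool.Agent.MP_bacbeb_nt.Basic

-- part MP_bacbeb_nt.WallA
section

/-! One step of the map in terms of the set of prime factors; the weight function. -/

set_option autoImplicit false

namespace Pool.Agent.MP_bacbeb_nt.Wall

open Finset

/-- product of `r - 1` -/
def PA (T : Finset ℕ) : ℕ := ∏ r ∈ T, (r - 1)

/-- product of `r + 1` -/
def PB (T : Finset ℕ) : ℕ := ∏ r ∈ T, (r + 1)

/-- the new factor of one step -/
def Y (T : Finset ℕ) : ℕ := PA T + PB T

/-- the odd prime factors -/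
def OP (m : ℕ) : Finset ℕ := m.primeFactors.erase 2

theorem mem_OP {m r : ℕ} (hm : m ≠ 0) : r ∈ OP m ↔ r.Prime ∧ r ≠ 2 ∧ r ∣ m := by
  simp only [OP, mem_erase, Nat.mem_primeFactors]
  tauto

theorem OP_odd {m r : ℕ} (h : r ∈ OP m) : r % 2 = 1 ∧ 3 ≤ r := by
  have h1 := mem_erase.1 h
  have hp := Nat.prime_of_mem_primeFactors h1.2
  have := hp.eq_two_or_odd
  have := hp.two_le
  omega

theorem PB_pos (T : Finset ℕ) : 0 < PB T := prod_pos fun _ _ => Nat.succ_pos _

theorem Y_ne (T : Finset ℕ) : Y T ≠ 0 := by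
  have := PB_pos T
  unfold Y; omega

theorem psi_rad {m : ℕ} (hm : m ≠ 0) :
    psi m * ∏ r ∈ m.primeFactors, r = m * PB m.primeFactors := by
  have h := Nat.prod_factorization_pow_eq_self hm
  rw [Finsupp.prod, Nat.support_factorization] at h
  calc psi m * ∏ r ∈ m.primeFactors, r
      = (∏ r ∈ m.primeFactors, r ^ m.factorization r) * PB m.primeFactors := by
        rw [psi, PB, ← prod_mul_distrib, ← prod_mul_distrib]
        refine prod_congr rfl fun r hr => ?_
        have h1 : 0 < m.factorization r := (Nat.prime_of_mem_primeFactors hr).factorization_pos_of_dvd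
          hm (Nat.dvd_of_mem_primeFactors hr)
        obtain ⟨k, hk⟩ : ∃ k, m.factorization r = k + 1 := ⟨_, (Nat.succ_pred_eq_of_pos h1).symm⟩
        rw [hk, Nat.add_sub_cancel]; ring
    _ = m * PB m.primeFactors := by rw [h]

theorem two_F {m p : ℕ} (hm : m ≠ 0) (hp : p ∈ OP m) : 2 * F m = Nat.totient m + psi m := by
  have h3 := OP_odd hp
  have hd := ((mem_OP hm).1 hp).2.2
  have h1 : 2 ∣ Nat.totient m :=
    (Nat.totient_even (lt_of_lt_of_le (by omega) (Nat.le_of_dvd (Nat.pos_of_ne_zero hm) hd))).two_dvd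
  have h2 : 2 ∣ psi m := by
    refine Dvd.dvd.trans ?_ (dvd_prod_of_mem _ (mem_erase.1 hp).2)
    exact Dvd.dvd.mul_left (by omega) _
  exact Nat.mul_div_cancel' (dvd_add h1 h2)

theorem step_eq {m p : ℕ} (hm : m ≠ 0) (hp : p ∈ OP m) :
    2 * F m * ∏ r ∈ m.primeFactors, r = m * Y m.primeFactors := by
  rw [two_F hm hp, add_mul, psi_rad hm, Nat.totient_mul_prod_primeFactors, Y, PA]; ring

theorem F_ne {m p : ℕ} (hm : m ≠ 0) (hp : p ∈ OP m) : F m ≠ 0 := by
  intro h
  have := step_eq hm hp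
  rw [h, mul_zero, zero_mul] at this
  exact mul_ne_zero hm (Y_ne _) this.symm

theorem pf_even {m : ℕ} (hm : m ≠ 0) (h : 2 ∣ m) : m.primeFactors = insert 2 (OP m) :=
  (insert_erase (Nat.mem_primeFactors.2 ⟨Nat.prime_two, h, hm⟩)).symm

theorem pf_odd {m : ℕ} (h : ¬ 2 ∣ m) : m.primeFactors = OP m :=
  (erase_eq_of_notMem fun h2 => h (Nat.dvd_of_mem_primeFactors h2)).symm

theorem two_notMem (m : ℕ) : 2 ∉ OP m := notMem_erase _ _

theorem Y_even {m : ℕ} (hm : m ≠ 0) (h : 2 ∣ m) :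
    Y m.primeFactors = PA (OP m) + 3 * PB (OP m) := by
  rw [pf_even hm h, Y, PA, PB, prod_insert (two_notMem m), prod_insert (two_notMem m)]
  simp [PA, PB]

theorem Y_odd {m : ℕ} (h : ¬ 2 ∣ m) : Y m.primeFactors = PA (OP m) + PB (OP m) := by
  rw [pf_odd h, Y]

theorem pow_dvd_PA {T : Finset ℕ} (h : ∀ r ∈ T, r % 2 = 1) : 2 ^ T.card ∣ PA T := by
  rw [PA, ← prod_const]
  exact prod_dvd_prod_of_dvd _ _ fun r hr => by have := h r hr; omega

theorem pow_dvd_PB {T : Finset ℕ} (h : ∀ r ∈ T, r % 2 = 1) : 2 ^ T.card ∣ PB T := by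
  rw [PB, ← prod_const]
  exact prod_dvd_prod_of_dvd _ _ fun r hr => by have := h r hr; omega

theorem pow_dvd_PA' {T : Finset ℕ} (h : ∀ r ∈ T, r % 2 = 1) {s : ℕ} (hs : s ∈ T)
    (h4 : s % 4 = 1) : 2 ^ (T.card + 1) ∣ PA T := by
  have := pow_dvd_PA (T := T.erase s) fun r hr => h r (mem_erase.1 hr).2
  rw [PA, ← mul_prod_erase _ _ hs, ← card_erase_add_one hs,
    show 2 ^ ((T.erase s).card + 1 + 1) = 4 * 2 ^ (T.erase s).card by ring]
  exact mul_dvd_mul (by omega) this

theorem pow_dvd_PB' {T : Finset ℕ} (h : ∀ r ∈ T, r % 2 = 1) {s : ℕ} (hs : s ∈ T)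
    (h4 : s % 4 = 3) : 2 ^ (T.card + 1) ∣ PB T := by
  have := pow_dvd_PB (T := T.erase s) fun r hr => h r (mem_erase.1 hr).2
  rw [PB, ← mul_prod_erase _ _ hs, ← card_erase_add_one hs,
    show 2 ^ ((T.erase s).card + 1 + 1) = 4 * 2 ^ (T.erase s).card by ring]
  exact mul_dvd_mul (by omega) this

theorem dvd_Y (m : ℕ) (hm : m ≠ 0) : 2 ^ (OP m).card ∣ Y m.primeFactors := by
  have h : ∀ r ∈ OP m, r % 2 = 1 := fun r hr => (OP_odd hr).1
  by_cases h2 : 2 ∣ m
  · rw [Y_even hm h2]; exact dvd_add (pow_dvd_PA h) ((pow_dvd_PB h).mul_left _)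
  · rw [Y_odd h2]; exact dvd_add (pow_dvd_PA h) (pow_dvd_PB h)

/-- two odd prime factors in different classes modulo `4` -/
def Mixed (m : ℕ) : Prop := ∃ r ∈ OP m, ∃ s ∈ OP m, r % 4 ≠ s % 4

theorem dvd_Y' {m : ℕ} (hm : m ≠ 0) (hx : Mixed m) :
    2 ^ ((OP m).card + 1) ∣ Y m.primeFactors := by
  have h : ∀ r ∈ OP m, r % 2 = 1 := fun r hr => (OP_odd hr).1
  obtain ⟨r, s, hr, hs, h1, h3⟩ : ∃ r s, r ∈ OP m ∧ s ∈ OP m ∧ r % 4 = 1 ∧ s % 4 = 3 := by
    obtain ⟨r, hr, s, hs, hne⟩ := hx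
    have := h r hr
    have := h s hs
    by_cases h1 : r % 4 = 1
    · exact ⟨r, s, hr, hs, h1, by omega⟩
    · exact ⟨s, r, hs, hr, by omega, by omega⟩
  by_cases h2 : 2 ∣ m
  · rw [Y_even hm h2]; exact dvd_add (pow_dvd_PA' h hr h1) ((pow_dvd_PB' h hs h3).mul_left _)
  · rw [Y_odd h2]; exact dvd_add (pow_dvd_PA' h hr h1) (pow_dvd_PB' h hs h3)

/-- valuations along one step -/
theorem val_step {m p : ℕ} (hm : m ≠ 0) (hp : p ∈ OP m) (r : ℕ) :
    (if r = 2 then 1 else 0) + (F m).factorization r + (if r ∈ m.primeFactors then 1 else 0) =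
      m.factorization r + (Y m.primeFactors).factorization r := by
  have h : (2 * F m * ∏ r ∈ m.primeFactors, r).factorization r =
      (m * Y m.primeFactors).factorization r := by rw [step_eq hm hp]
  have hrad : (∏ r ∈ m.primeFactors, r) ≠ 0 :=
    prod_ne_zero_iff.2 fun r hr => (Nat.prime_of_mem_primeFactors hr).ne_zero
  rw [Nat.factorization_mul (mul_ne_zero two_ne_zero (F_ne hm hp)) hrad,
    Nat.factorization_mul two_ne_zero (F_ne hm hp), Nat.factorization_mul hm (Y_ne _),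
    Nat.factorization_prod fun r hr => (Nat.prime_of_mem_primeFactors hr).ne_zero] at h
  simp only [Finsupp.coe_add, Pi.add_apply, Finsupp.coe_finsetSum, Finset.sum_apply] at h
  rw [← h, Nat.prime_two.factorization,
    sum_congr rfl fun x hx => by rw [(Nat.prime_of_mem_primeFactors hx).factorization]]
  simp only [Finsupp.single_apply, sum_ite_eq', @eq_comm _ 2 r]

/-- the weight of a prime -/
def w (r : ℕ) : ℚ := if r = 2 then 1 else r - 1 / 5

/-- the completely multiplicative weight -/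
def W (m : ℕ) : ℚ := m.factorization.prod fun r k => w r ^ k

theorem one_le_w {r : ℕ} (h : 2 ≤ r) : 1 ≤ w r := by
  unfold w; split_ifs
  · exact le_rfl
  · have : (2 : ℚ) ≤ r := by exact_mod_cast h
    linarith

theorem w_le {r : ℕ} (h : 2 ≤ r) : w r ≤ r := by
  have : (2 : ℚ) ≤ r := by exact_mod_cast h
  unfold w; split_ifs <;> linarith

theorem w_odd {r : ℕ} (h : r ≠ 2) : w r = r - 1 / 5 := if_neg h

theorem W_mul {a b : ℕ} (ha : a ≠ 0) (hb : b ≠ 0) : W (a * b) = W a * W b := by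
  unfold W
  rw [Nat.factorization_mul ha hb, Finsupp.prod_add_index' (by simp) fun _ _ _ => pow_add _ _ _]

theorem W_pow {p : ℕ} (hp : p.Prime) (k : ℕ) : W (p ^ k) = w p ^ k := by
  unfold W
  rw [hp.factorization_pow, Finsupp.prod_single_index (by simp)]

theorem W_two (k : ℕ) : W (2 ^ k) = 1 := by rw [W_pow Nat.prime_two]; simp [w]

theorem one_le_W (m : ℕ) : 1 ≤ W m := by
  unfold W Finsupp.prod
  rw [Nat.support_factorization, ← prod_const_one (s := m.primeFactors)]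
  exact prod_le_prod (fun _ _ => zero_le_one) fun r hr =>
    one_le_pow₀ (one_le_w (Nat.prime_of_mem_primeFactors hr).two_le)

theorem W_le {m : ℕ} (hm : m ≠ 0) : W m ≤ m := by
  have h := Nat.prod_factorization_pow_eq_self hm
  rw [Finsupp.prod, Nat.support_factorization] at h
  have h' : (m : ℚ) = ∏ p ∈ m.primeFactors, (p : ℚ) ^ m.factorization p := by
    exact_mod_cast h.symm
  rw [h']
  unfold W Finsupp.prod
  rw [Nat.support_factorization]
  refine prod_le_prod (fun r hr => ?_) fun r hr => ?_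
  · exact pow_nonneg (zero_le_one.trans (one_le_w (Nat.prime_of_mem_primeFactors hr).two_le)) _
  · have h2 := (Nat.prime_of_mem_primeFactors hr).two_le
    exact pow_le_pow_left₀ (zero_le_one.trans (one_le_w h2)) (w_le h2) _

theorem W_prod {T : Finset ℕ} (h : ∀ r ∈ T, r.Prime) : W (∏ r ∈ T, r) = ∏ r ∈ T, w r := by
  induction T using Finset.induction_on with
  | empty => simp [W]
  | insert a s ha ih =>
    have h1 := h a (mem_insert_self _ _)
    have h2 : ∀ r ∈ s, r.Prime := fun r hr => h r (mem_insert_of_mem hr)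
    rw [prod_insert ha, prod_insert ha, W_mul h1.ne_zero
      (prod_ne_zero_iff.2 fun r hr => (h2 r hr).ne_zero), ih h2]
    have := W_pow h1 1
    rw [pow_one, pow_one] at this
    rw [this]

theorem W_le_div {y k : ℕ} (hy : y ≠ 0) (h : 2 ^ k ∣ y) : W y ≤ y / 2 ^ k := by
  obtain ⟨z, rfl⟩ := h
  have hz : z ≠ 0 := by rintro rfl; simp at hy
  rw [W_mul (by positivity) hz, W_two, one_mul]
  push_cast
  rw [mul_div_cancel_left₀ _ (by positivity)]
  exact W_le hz

/-- product of the weights of the odd prime factors -/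
def D (m : ℕ) : ℚ := ∏ r ∈ OP m, w r

theorem one_le_D (m : ℕ) : 1 ≤ D m := by
  rw [D, ← prod_const_one (s := OP m)]
  exact prod_le_prod (fun _ _ => zero_le_one) fun r hr => one_le_w (by have := OP_odd hr; omega)

theorem D_eq (m : ℕ) : ∏ r ∈ m.primeFactors, w r = D m := by
  rw [D, OP, prod_erase _ (by simp [w])]

/-- the factor by which one step changes the weight -/
def rho (T : Finset ℕ) : ℚ := W (Y T) / ∏ r ∈ T, w r

theorem W_step {m p : ℕ} (hm : m ≠ 0) (hp : p ∈ OP m) :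
    W (F m) = rho m.primeFactors * W m := by
  have h := congrArg W (step_eq hm hp)
  have hrad : (∏ r ∈ m.primeFactors, r) ≠ 0 :=
    prod_ne_zero_iff.2 fun r hr => (Nat.prime_of_mem_primeFactors hr).ne_zero
  have h2 := W_two 1
  rw [pow_one] at h2
  rw [W_mul (mul_ne_zero two_ne_zero (F_ne hm hp)) hrad, W_mul two_ne_zero (F_ne hm hp),
    W_mul hm (Y_ne _), W_prod fun r hr => Nat.prime_of_mem_primeFactors hr, h2, one_mul,
    D_eq] at h
  have := one_le_D m
  rw [rho, D_eq]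
  field_simp
  linarith

theorem rho_pos (m : ℕ) : 0 < rho m.primeFactors := by
  rw [rho, D_eq]
  have := one_le_D m
  have := one_le_W (Y m.primeFactors)
  positivity

theorem rho_le {m k : ℕ} (h : 2 ^ k ∣ Y m.primeFactors) {c : ℚ}
    (hc : (Y m.primeFactors : ℚ) ≤ c * 2 ^ k * D m) : rho m.primeFactors ≤ c := by
  have h1 := W_le_div (Y_ne _) h
  have := one_le_D m
  rw [rho, D_eq, div_le_iff₀ (by linarith)]
  refine h1.trans ?_
  rw [div_le_iff₀ (by positivity)]
  linarith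

theorem PA_le (T : Finset ℕ) : PA T ≤ PB T :=
  prod_le_prod (fun _ _ => Nat.zero_le _) fun _ _ => by omega

theorem PB_le (m : ℕ) : (PB (OP m) : ℚ) ≤ 8 / 7 * (5 / 4) ^ (OP m).card * D m := by
  have key : ∀ T : Finset ℕ, (∀ r ∈ T, 5 ≤ r) →
      (PB T : ℚ) ≤ (5 / 4) ^ T.card * ∏ r ∈ T, w r := by
    intro T hT
    rw [PB, ← prod_const, ← prod_mul_distrib]
    push_cast
    refine prod_le_prod (fun _ _ => by positivity) fun r hr => ?_
    have h5 := hT r hr
    have : (5 : ℚ) ≤ r := by exact_mod_cast h5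
    rw [w_odd (by omega)]; linarith
  by_cases h3 : 3 ∈ OP m
  · have := key ((OP m).erase 3) fun r hr => by
      have := OP_odd (mem_erase.1 hr).2
      have := (mem_erase.1 hr).1
      omega
    rw [D, PB, ← mul_prod_erase _ _ h3, ← mul_prod_erase _ _ h3, ← card_erase_add_one h3,
      w_odd (by norm_num), pow_succ]
    rw [PB] at this
    push_cast at this ⊢
    linarith
  · have := key (OP m) fun r hr => by
      have := OP_odd hr
      have : r ≠ 3 := fun e => h3 (e ▸ hr)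
      omega
    have h1 := one_le_D m
    have h2 : (0 : ℚ) ≤ (5 / 4) ^ (OP m).card * D m := by positivity
    rw [D] at h2 ⊢
    linarith

theorem bound_aux {c k : ℕ} (h : k ≤ c) : ((5 : ℚ) / 4) ^ c ≤ (5 / 8) ^ k * 2 ^ c := by
  rw [show ((5 : ℚ) / 4) = 5 / 8 * 2 by norm_num, mul_pow]
  exact mul_le_mul_of_nonneg_right (pow_le_pow_of_le_one (by norm_num) (by norm_num) h)
    (by positivity)

theorem PB_le' (m : ℕ) {k : ℕ} (h : k ≤ (OP m).card) :
    (PB (OP m) : ℚ) ≤ 8 / 7 * (5 / 8) ^ k * 2 ^ (OP m).card * D m := by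
  have h1 := PB_le m
  have h2 := bound_aux h
  have h3 := one_le_D m
  nlinarith

theorem rho_odd {m k : ℕ} (hm : m ≠ 0) (h2 : ¬ 2 ∣ m) (h : k ≤ (OP m).card) :
    rho m.primeFactors ≤ 16 / 7 * (5 / 8) ^ k := by
  refine rho_le (dvd_Y m hm) ?_
  have h1 := PB_le' m h
  have h3 : (PA (OP m) : ℚ) ≤ PB (OP m) := by exact_mod_cast PA_le _
  rw [Y_odd h2]; push_cast; linarith

theorem rho_even {m k : ℕ} (hm : m ≠ 0) (h2 : 2 ∣ m) (h : k ≤ (OP m).card) :
    rho m.primeFactors ≤ 32 / 7 * (5 / 8) ^ k := by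
  refine rho_le (dvd_Y m hm) ?_
  have h1 := PB_le' m h
  have h3 : (PA (OP m) : ℚ) ≤ PB (OP m) := by exact_mod_cast PA_le _
  rw [Y_even hm h2]; push_cast; linarith

theorem rho_mixed {m k : ℕ} (hm : m ≠ 0) (h2 : 2 ∣ m) (hx : Mixed m) (h : k ≤ (OP m).card) :
    rho m.primeFactors ≤ 16 / 7 * (5 / 8) ^ k := by
  refine rho_le (dvd_Y' hm hx) ?_
  have h1 := PB_le' m h
  have h3 : (PA (OP m) : ℚ) ≤ PB (OP m) := by exact_mod_cast PA_le _
  rw [Y_even hm h2, pow_succ]; push_cast; linarith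

end Pool.Agent.MP_bacbeb_nt.Wall

end

-- part MP_bacbeb_nt.WallB
section

/-! While two odd primes divide the terms, the weight goes down in one or two steps. -/

set_option autoImplicit false

namespace Pool.Agent.MP_bacbeb_nt.Wall

open Finset

theorem sorted3 {T : Finset ℕ} (h : T.card = 3) :
    ∃ x y z, x < y ∧ y < z ∧ T = {x, y, z} := by
  obtain ⟨a, b, c, hab, hac, hbc, rfl⟩ := card_eq_three.1 h
  rcases lt_or_gt_of_ne hab with h1 | h1 <;> rcases lt_or_gt_of_ne hac with h2 | h2 <;>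
    rcases lt_or_gt_of_ne hbc with h3 | h3
  · exact ⟨a, b, c, h1, h3, rfl⟩
  · exact ⟨a, c, b, h2, h3, by ext; simp only [mem_insert, mem_singleton]; tauto⟩
  · omega
  · exact ⟨c, a, b, h2, h1, by ext; simp only [mem_insert, mem_singleton]; tauto⟩
  · exact ⟨b, a, c, h1, h2, by ext; simp only [mem_insert, mem_singleton]; tauto⟩
  · omega
  · exact ⟨b, c, a, h3, h2, by ext; simp only [mem_insert, mem_singleton]; tauto⟩
  · exact ⟨c, b, a, h3, h1, by ext; simp only [mem_insert, mem_singleton]; tauto⟩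

theorem tri {x y z al a b c : ℚ} (hx : 3 ≤ x) (hy : 3 ≤ y) (hz : 3 ≤ z)
    (h0 : x - 1 ≤ al * (x - 1 / 5)) (h1 : x + 1 ≤ a * (x - 1 / 5))
    (h2 : y + 1 ≤ b * (y - 1 / 5)) (h3 : z + 1 ≤ c * (z - 1 / 5)) :
    (x - 1) * ((y - 1) * (z - 1)) + 3 * ((x + 1) * ((y + 1) * (z + 1))) ≤
      (al + 3 * (a * b * c)) * ((x - 1 / 5) * ((y - 1 / 5) * (z - 1 / 5))) := by
  have e1 : (y - 1) * (z - 1) ≤ (y - 1 / 5) * (z - 1 / 5) :=
    mul_le_mul (by linarith) (by linarith) (by linarith) (by linarith)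
  have e2 : (x - 1) * ((y - 1) * (z - 1)) ≤ al * (x - 1 / 5) * ((y - 1 / 5) * (z - 1 / 5)) :=
    mul_le_mul h0 e1 (mul_nonneg (by linarith) (by linarith)) (by linarith)
  have e3 : (y + 1) * (z + 1) ≤ b * (y - 1 / 5) * (c * (z - 1 / 5)) :=
    mul_le_mul h2 h3 (by linarith) (by linarith)
  have e4 : (x + 1) * ((y + 1) * (z + 1)) ≤
      a * (x - 1 / 5) * (b * (y - 1 / 5) * (c * (z - 1 / 5))) :=
    mul_le_mul h1 e3 (mul_nonneg (by linarith) (by linarith)) (by linarith)
  linarith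

theorem rho_three_aux {m x y z : ℕ} (hm : m ≠ 0) (h2 : 2 ∣ m) (hxy : x < y) (hyz : y < z)
    (hT : OP m = {x, y, z}) {al a b c : ℚ}
    (h0 : (x : ℚ) - 1 ≤ al * (x - 1 / 5)) (h1 : (x : ℚ) + 1 ≤ a * (x - 1 / 5))
    (h3 : (y : ℚ) + 1 ≤ b * (y - 1 / 5)) (h4 : (z : ℚ) + 1 ≤ c * (z - 1 / 5)) :
    rho m.primeFactors ≤ (al + 3 * (a * b * c)) / 8 := by
  have hx : 3 ≤ x := (OP_odd (m := m) (by simp [hT])).2
  have n1 : x ∉ ({y, z} : Finset ℕ) := by simp only [mem_insert, mem_singleton]; omega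
  have n2 : y ∉ ({z} : Finset ℕ) := by simp only [mem_singleton]; omega
  have hc : (OP m).card = 3 := by rw [hT, card_insert_of_notMem n1, card_insert_of_notMem n2]; rfl
  refine rho_le (dvd_Y m hm) ?_
  have := tri (x := x) (y := y) (z := z) (by exact_mod_cast hx)
    (by exact_mod_cast (by omega : 3 ≤ y)) (by exact_mod_cast (by omega : 3 ≤ z)) h0 h1 h3 h4
  rw [Y_even hm h2, hc, D, hT, PA, PB, prod_insert n1, prod_insert n2, prod_insert n1,
    prod_insert n2, prod_insert n1, prod_insert n2, prod_singleton, prod_singleton,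
    prod_singleton, w_odd (by omega), w_odd (by omega), w_odd (by omega)]
  push_cast [Nat.cast_sub (by omega : 1 ≤ x), Nat.cast_sub (by omega : 1 ≤ y),
    Nat.cast_sub (by omega : 1 ≤ z)]
  linarith

/-- even terms with at least three odd prime factors -/
theorem rho_three {m : ℕ} (hm : m ≠ 0) (h2 : 2 ∣ m) (h3 : 3 ≤ (OP m).card) :
    rho m.primeFactors ≤ 79 / 100 ∧
    (Mixed m → rho m.primeFactors ≤ 7 / 10) ∧
    (∀ q ∈ OP m, 19 ≤ q → rho m.primeFactors ≤ 76 / 100) := by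
  by_cases hx : Mixed m
  · have := rho_mixed hm h2 hx h3
    exact ⟨by linarith, fun _ => by linarith, fun _ _ _ => by linarith⟩
  rcases h3.lt_or_eq with h4 | h4
  · have := rho_even hm h2 (k := 4) h4
    exact ⟨by linarith, fun _ => by linarith, fun _ _ _ => by linarith⟩
  obtain ⟨x, y, z, hxy, hyz, hT⟩ := sorted3 h4.symm
  have mx : x ∈ OP m := by simp [hT]
  have my : y ∈ OP m := by simp [hT]
  have mz : z ∈ OP m := by simp [hT]
  have e1 : x % 4 = y % 4 := by by_contra h; exact hx ⟨x, mx, y, my, h⟩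
  have e2 : y % 4 = z % 4 := by by_contra h; exact hx ⟨y, my, z, mz, h⟩
  have ox := OP_odd mx
  rcases ox.2.lt_or_eq with h5 | h5
  · have a1 : (5 : ℚ) ≤ x := by exact_mod_cast (by omega : 5 ≤ x)
    have a2 : (9 : ℚ) ≤ y := by exact_mod_cast (by omega : 9 ≤ y)
    have a3 : (13 : ℚ) ≤ z := by exact_mod_cast (by omega : 13 ≤ z)
    have := rho_three_aux hm h2 hxy hyz hT (al := 1) (a := 5 / 4) (b := 25 / 22) (c := 35 / 32)
      (by linarith) (by linarith) (by linarith) (by linarith)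
    exact ⟨by linarith, fun h => absurd h hx, fun _ _ _ => by linarith⟩
  · have a1 : (x : ℚ) = 3 := by exact_mod_cast h5.symm
    have a2 : (7 : ℚ) ≤ y := by exact_mod_cast (by omega : 7 ≤ y)
    have a3 : (11 : ℚ) ≤ z := by exact_mod_cast (by omega : 11 ≤ z)
    refine ⟨?_, fun h => absurd h hx, fun q hq h19 => ?_⟩
    · have := rho_three_aux hm h2 hxy hyz hT (al := 5 / 7) (a := 10 / 7) (b := 20 / 17)
        (c := 10 / 9) (by linarith) (by linarith) (by linarith) (by linarith)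
      linarith
    · have a4 : (19 : ℚ) ≤ z := by
        rw [hT] at hq
        simp only [mem_insert, mem_singleton] at hq
        exact_mod_cast (by omega : 19 ≤ z)
      have := rho_three_aux hm h2 hxy hyz hT (al := 5 / 7) (a := 10 / 7) (b := 20 / 17)
        (c := 50 / 47) (by linarith) (by linarith) (by linarith) (by linarith)
      linarith

/-- even terms with exactly two odd prime factors -/
theorem pair_step {m p q : ℕ} (hm : m ≠ 0) (h2 : 2 ∣ m) (hpq : p ≠ q) (hT : OP m = {p, q}) :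
    ∃ X, 2 * X = 2 * (p * q) + p + q + 2 ∧ Y m.primeFactors = 4 * X ∧
      F m * (p * q) = m * X := by
  have mp : p ∈ OP m := by simp [hT]
  have mq : q ∈ OP m := by simp [hT]
  have op := OP_odd mp
  have oq := OP_odd mq
  have n1 : p ∉ ({q} : Finset ℕ) := by simpa using hpq
  obtain ⟨a, rfl⟩ : ∃ a, p = 2 * a + 1 := ⟨p / 2, by omega⟩
  obtain ⟨b, rfl⟩ : ∃ b, q = 2 * b + 1 := ⟨q / 2, by omega⟩
  have hY : Y m.primeFactors = 4 * ((2 * a + 1) * (2 * b + 1) + a + b + 2) := by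
    rw [Y_even hm h2, hT, PA, PB, prod_insert n1, prod_insert n1, prod_singleton, prod_singleton,
      Nat.add_sub_cancel, Nat.add_sub_cancel]
    ring
  refine ⟨_, by ring, hY, ?_⟩
  have h := step_eq hm mp
  rw [hY, pf_even hm h2, prod_insert (two_notMem m), hT, prod_insert n1, prod_singleton] at h
  refine Nat.eq_of_mul_eq_mul_left (by norm_num : 0 < 4) ?_
  linarith

theorem two_primes {X p q : ℕ} (hX : X ≠ 0) (hp : p.Prime) (hq : q.Prime)
    (h : ∀ r, r.Prime → r ∣ X → r = p ∨ r = q) : ∃ b c, X = p ^ b * q ^ c := by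
  obtain ⟨b, X1, n1, e1⟩ := Nat.exists_eq_pow_mul_and_not_dvd hX p hp.ne_one
  have z1 : X1 ≠ 0 := by rintro rfl; simp at n1
  obtain ⟨c, X2, n2, e2⟩ := Nat.exists_eq_pow_mul_and_not_dvd z1 q hq.ne_one
  refine ⟨b, c, ?_⟩
  by_cases h1 : X2 = 1
  · rw [e1, e2, h1, mul_one]
  · obtain ⟨r, hr, hd⟩ := Nat.exists_prime_and_dvd h1
    have d1 : r ∣ X1 := e2 ▸ hd.mul_left _
    rcases h r hr (e1 ▸ d1.mul_left _) with rfl | rfl
    · exact absurd d1 n1
    · exact absurd hd n2

/-- small exponents in `2 p ^ b = 2 p q + p + q + 2` -/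
theorem pow_cases {p q b : ℕ} (hp : 3 ≤ p) (hq : 3 ≤ q)
    (h : 2 * p ^ b = 2 * (p * q) + p + q + 2) : (p = 3 ∧ q = 7) ∨ 4 ≤ b := by
  by_contra hc
  have hb : b < 4 := by omega
  have hpq : 3 * p ≤ p * q := by nlinarith
  interval_cases b
  · rw [pow_zero] at h; omega
  · rw [pow_one] at h; omega
  · have h1 : q < p := by nlinarith
    have h2 : p ∣ q + 2 := by
      have : p ∣ 2 * (p * q) + p + q + 2 := h ▸ Dvd.intro_left (2 * p) (by ring)
      have e : 2 * (p * q) + p + q + 2 = p * (2 * q + 1) + (q + 2) := by ring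
      rw [e] at this
      exact (Nat.dvd_add_right (Dvd.intro _ rfl)).1 this
    obtain ⟨t, ht⟩ := h2
    have h3 : t = 1 := by
      rcases t with _ | _ | t
      · omega
      · rfl
      · nlinarith
    subst h3
    have : p = q + 2 := by omega
    subst this
    nlinarith
  · have h1 : (2 * p + 1 : ℤ) ∣ 7 := by
      have hz : (2 : ℤ) * p ^ 3 = 2 * (p * q) + p + q + 2 := by exact_mod_cast h
      exact ⟨4 * p ^ 2 - 2 * p - 1 - 4 * q, by linear_combination (-4 : ℤ) * hz⟩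
    have h2 : 2 * p + 1 ∣ 7 := by exact_mod_cast h1
    have h3 := Nat.le_of_dvd (by norm_num) h2
    have : p = 3 := by omega
    subst this
    omega

theorem pure_pair {p q b : ℕ} (hp : 3 ≤ p) (hq : 3 ≤ q) (h37 : ¬ (p = 3 ∧ q = 7))
    (h : 2 * p ^ b = 2 * (p * q) + p + q + 2) : w p ^ b < w p * w q := by
  obtain ⟨k, rfl⟩ := Nat.exists_eq_add_of_le' ((pow_cases hp hq h).resolve_left h37)
  have hq7 : 7 * p + 2 ≤ q := by
    by_contra hc
    have h1 : p ^ 4 ≤ p ^ (k + 4) := Nat.pow_le_pow_right (by omega) (by omega)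
    have h2 : p * q ≤ p * (7 * p + 1) := Nat.mul_le_mul_left _ (by omega)
    have h3 : 9 * p ^ 2 ≤ p ^ 4 := by nlinarith [Nat.mul_le_mul hp hp]
    rcases hp.lt_or_eq with h4 | h4
    · nlinarith
    · subst h4; omega
  have a1 : (3 : ℚ) ≤ p := by exact_mod_cast hp
  have a2 : 7 * (p : ℚ) + 2 ≤ q := by exact_mod_cast hq7
  have a3 : 2 * (p : ℚ) ^ (k + 4) = 2 * (p * q) + p + q + 2 := by exact_mod_cast h
  rw [w_odd (by omega), w_odd (by omega)]
  generalize (p : ℚ) = x at a1 a2 a3 ⊢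
  generalize (q : ℚ) = y at a2 a3 ⊢
  have b1 : (x - 1 / 5) ^ k ≤ x ^ k := pow_le_pow_left₀ (by linarith) (by linarith) _
  have b2 : 0 < x - 1 / 5 := by linarith
  have b3 : (x - 1 / 5) ^ 3 * (2 * (x * y) + x + y + 2) < 2 * x ^ 4 * (y - 1 / 5) := by
    have c1 : 0 ≤ (y - (7 * x + 2)) * (25 * x ^ 3 + 45 * x ^ 2 - 13 * x + 1) :=
      mul_nonneg (by linarith) (by nlinarith)
    have c2 : 0 < 575 * x ^ 3 + 745 * x ^ 2 - 240 * x + 20 := by nlinarith
    nlinarith
  have b4 : (x - 1 / 5) ^ 3 * x ^ k < y - 1 / 5 := by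
    rw [← a3] at b3
    have hx4 : 0 < 2 * x ^ 4 := by positivity
    refine lt_of_mul_lt_mul_left ?_ hx4.le
    calc 2 * x ^ 4 * ((x - 1 / 5) ^ 3 * x ^ k) = (x - 1 / 5) ^ 3 * (2 * x ^ (k + 4)) := by ring
      _ < _ := b3
  calc (x - 1 / 5) ^ (k + 4) = (x - 1 / 5) * ((x - 1 / 5) ^ 3 * (x - 1 / 5) ^ k) := by ring
    _ ≤ (x - 1 / 5) * ((x - 1 / 5) ^ 3 * x ^ k) := by gcongr
    _ < _ := by gcongr

theorem pair_pow {p q X b c : ℕ} (hp : 3 ≤ p) (hq : 3 ≤ q)
    (hX : 2 * X = 2 * (p * q) + p + q + 2) (h : X = p ^ b * q ^ c) : b = 0 ∨ c = 0 := by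
  by_contra hc
  obtain ⟨b, rfl⟩ : ∃ t, b = t + 1 := ⟨b - 1, by omega⟩
  obtain ⟨c, rfl⟩ : ∃ t, c = t + 1 := ⟨c - 1, by omega⟩
  have e : X = p * q * (p ^ b * q ^ c) := by rw [h]; ring
  generalize p ^ b * q ^ c = t at e
  have h1 : p + q + 2 < 2 * (p * q) := by nlinarith
  rcases t with _ | _ | t
  · omega
  · omega
  · nlinarith

theorem claimA_lt {m p q : ℕ} (hm : m ≠ 0) (hp : p ∈ OP m) (hq : q ∈ OP m) (hpq : p < q)
    (hp' : p ∣ F m) (hq' : q ∣ F m) (h37 : OP m ≠ {3, 7}) :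
    rho m.primeFactors < 1 ∨ rho m.primeFactors * rho (F m).primeFactors < 1 := by
  have hsub : ({p, q} : Finset ℕ) ⊆ OP m := by
    intro r hr; simp only [mem_insert, mem_singleton] at hr; rcases hr with rfl | rfl <;> assumption
  have hc2 : ({p, q} : Finset ℕ).card = 2 := card_pair hpq.ne
  have hc : 2 ≤ (OP m).card := hc2 ▸ card_le_card hsub
  by_cases h2 : 2 ∣ m
  swap
  · have := rho_odd hm h2 hc
    left; linarith
  by_cases hx : Mixed m
  · have := rho_mixed hm h2 hx hc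
    left; linarith
  rcases hc.lt_or_eq with h3 | h3
  · have := (rho_three hm h2 h3).1
    left; linarith
  have hT : OP m = {p, q} := (eq_of_subset_of_card_le hsub (by omega)).symm
  obtain ⟨X, hX, hY, hF⟩ := pair_step hm h2 hpq.ne hT
  have op := OP_odd hp
  have oq := OP_odd hq
  have pp := ((mem_OP hm).1 hp).1
  have pq := ((mem_OP hm).1 hq).1
  have e4 : p % 4 = q % 4 := by by_contra h; exact hx ⟨p, hp, q, hq, h⟩
  have X0 : X ≠ 0 := by omega
  have Xodd : X % 2 = 1 := by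
    have : p * q % 4 = 1 := by
      rw [Nat.mul_mod, ← e4]
      rcases (by omega : p % 4 = 1 ∨ p % 4 = 3) with h | h <;> rw [h]
    omega
  have hF0 := F_ne hm hp
  have hrho : rho m.primeFactors = W X / (w p * w q) := by
    rw [rho, D_eq, D, hT, prod_pair hpq.ne, hY, W_mul (by norm_num) X0,
      show (4 : ℕ) = 2 ^ 2 by norm_num, W_two, one_mul]
  have wp := one_le_w pp.two_le
  have wq := one_le_w pq.two_le
  have hsub' : ({p, q} : Finset ℕ) ⊆ OP (F m) := by
    intro r hr; simp only [mem_insert, mem_singleton] at hr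
    rcases hr with rfl | rfl
    · exact (mem_OP hF0).2 ⟨pp, by omega, hp'⟩
    · exact (mem_OP hF0).2 ⟨pq, by omega, hq'⟩
  have hc' : 2 ≤ (OP (F m)).card := hc2 ▸ card_le_card hsub'
  have back : ∀ r, r.Prime → r ∣ X → r = p ∨ r = q ∨ r ∈ OP (F m) := by
    intro r hr hd
    have : r ∣ F m * (p * q) := hF ▸ hd.mul_left _
    rcases (Nat.Prime.dvd_mul hr).1 this with h | h
    · refine Or.inr (Or.inr ((mem_OP hF0).2 ⟨hr, ?_, h⟩))
      rintro rfl; omega
    · rcases (Nat.Prime.dvd_mul hr).1 h with h | h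
      · exact Or.inl ((Nat.prime_dvd_prime_iff_eq hr pp).1 h)
      · exact Or.inr (Or.inl ((Nat.prime_dvd_prime_iff_eq hr pq).1 h))
  rcases hc'.lt_or_eq with h3' | h3'
  · right
    have h2' : 2 ∣ F m := by
      have : 2 ∣ F m * (p * q) := hF ▸ h2.mul_right _
      refine (Nat.Coprime.dvd_mul_right ?_).1 this
      exact Nat.Coprime.mul_right ((Nat.coprime_primes Nat.prime_two pp).2 (by omega))
        ((Nat.coprime_primes Nat.prime_two pq).2 (by omega))
    obtain ⟨t1, t2, t3⟩ := rho_three hF0 h2' h3'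
    have r2 := rho_pos (F m)
    have r1 := rho_pos m
    have hXq : 2 * (X : ℚ) = 2 * (p * q) + p + q + 2 := by exact_mod_cast hX
    have mu : ∀ c : ℚ, (X : ℚ) ≤ c * ((p - 1 / 5) * (q - 1 / 5)) → rho m.primeFactors ≤ c := by
      intro c h
      rw [hrho, div_le_iff₀ (by positivity), w_odd (by omega), w_odd (by omega)]
      exact (W_le X0).trans h
    rcases op.2.lt_or_eq with h5 | h5
    · have a1 : (5 : ℚ) ≤ p := by exact_mod_cast (by omega : 5 ≤ p)
      have a2 : (9 : ℚ) ≤ q := by exact_mod_cast (by omega : 9 ≤ q)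
      have := mu (126 / 100) (by nlinarith [mul_nonneg (sub_nonneg.2 a1) (sub_nonneg.2 a2)])
      nlinarith
    · subst h5
      have q7 : q ≠ 7 := fun e => h37 (by rw [hT, e])
      have q15 : q ≠ 15 := by rintro rfl; norm_num at pq
      by_cases q11 : q = 11
      · subst q11
        have hX41 : X = 41 := by omega
        subst hX41
        have h41 : 41 ∈ OP (F m) := by
          rcases back 41 (by norm_num) dvd_rfl with h | h | h
          · omega
          · omega
          · exact h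
        have := t2 ⟨41, h41, 3, hsub' (by simp), by norm_num⟩
        have := mu (136 / 100) (by norm_num)
        nlinarith
      · have h19 : 19 ≤ q := by omega
        have := t3 q (hsub' (by simp)) h19
        have a2 : (19 : ℚ) ≤ q := by exact_mod_cast h19
        have := mu (1311 / 1000) (by push_cast at hXq ⊢; linarith)
        nlinarith
  · left
    have hT' : OP (F m) = {p, q} := (eq_of_subset_of_card_le hsub' (by omega)).symm
    obtain ⟨b, c, hbc⟩ := two_primes X0 pp pq fun r hr hd => by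
      rcases back r hr hd with h | h | h
      · exact Or.inl h
      · exact Or.inr h
      · simpa [hT'] using h
    rw [hrho, div_lt_one (by positivity)]
    rcases pair_pow op.2 oq.2 hX hbc with h | h
    · rw [h, pow_zero, one_mul] at hbc
      rw [hbc, W_pow pq, mul_comm]
      exact pure_pair oq.2 op.2 (by omega) (by rw [← hbc, hX]; ring)
    · rw [h, pow_zero, mul_one] at hbc
      rw [hbc, W_pow pp]
      refine pure_pair op.2 oq.2 ?_ (by rw [← hbc, hX])
      rintro ⟨rfl, rfl⟩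
      exact h37 hT

theorem claimA {m p q : ℕ} (hm : m ≠ 0) (hp : p ∈ OP m) (hq : q ∈ OP m) (hpq : p ≠ q)
    (hp' : p ∣ F m) (hq' : q ∣ F m) (h37 : OP m ≠ {3, 7}) :
    rho m.primeFactors < 1 ∨ rho m.primeFactors * rho (F m).primeFactors < 1 := by
  rcases lt_or_gt_of_ne hpq with h | h
  · exact claimA_lt hm hp hq h hp' hq' h37
  · exact claimA_lt hm hq hp h hq' hp' h37

end Pool.Agent.MP_bacbeb_nt.Wall

end

-- part MP_bacbeb_nt.WallC
section

/-! While an odd prime divides the terms, the exponent of `2` loses at most one. -/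

set_option autoImplicit false

namespace Pool.Agent.MP_bacbeb_nt.Wall

open Finset

theorem le_val {k y : ℕ} (hy : y ≠ 0) (h : 2 ^ k ∣ y) : k ≤ y.factorization 2 :=
  (Nat.prime_two.pow_dvd_iff_le_factorization hy).1 h

theorem v2_step {m p : ℕ} (hm : m ≠ 0) (hp : p ∈ OP m) :
    m.factorization 2 + (OP m).card ≤ (F m).factorization 2 + 2 := by
  have h := val_step hm hp 2
  have h1 := le_val (Y_ne _) (dvd_Y m hm)
  split_ifs at h <;> omega

theorem flat {m p : ℕ} (hm : m ≠ 0) (hp : p ∈ OP m) (hc : 2 ≤ (OP m).card)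
    (hv : (F m).factorization 2 ≤ m.factorization 2) :
    2 ∣ m ∧ ∃ q, q ≠ p ∧ OP m = {p, q} ∧ p % 4 = q % 4 := by
  have h := val_step hm hp 2
  have h1 := le_val (Y_ne _) (dvd_Y m hm)
  have h2 : 2 ∣ m := by
    by_contra h2
    rw [if_pos rfl, if_neg fun h3 => h2 (Nat.dvd_of_mem_primeFactors h3)] at h
    omega
  have hc2 : (OP m).card = 2 := by split_ifs at h <;> omega
  have hx : ¬ Mixed m := fun hx => by
    have := le_val (Y_ne _) (dvd_Y' hm hx)
    split_ifs at h <;> omega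
  obtain ⟨q, hq⟩ := card_eq_one.1 (show ((OP m).erase p).card = 1 by
    rw [card_erase_of_mem hp, hc2])
  have mq : q ∈ (OP m).erase p := by rw [hq]; exact mem_singleton_self _
  refine ⟨h2, q, (mem_erase.1 mq).1, ?_, ?_⟩
  · rw [← insert_erase hp, hq]
  · by_contra hne
    exact hx ⟨p, hp, q, (mem_erase.1 mq).2, hne⟩

theorem pp_or_sq {c q : ℕ} (hc : 1 < c) (hq : q.Prime) (h : ∀ r, r.Prime → r ∣ c → r = q) :
    c = q ∨ q ^ 2 ∣ c := by
  obtain ⟨b, k, e⟩ := two_primes (by omega : c ≠ 0) hq hq fun r hr hd => Or.inl (h r hr hd)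
  rw [← pow_add] at e
  generalize b + k = t at e
  rcases t with _ | _ | t
  · simp at e; omega
  · left; simpa using e
  · right; rw [e]; exact pow_dvd_pow _ (by omega)

theorem three_of {m p r s : ℕ} (hp : p ∈ OP m) (hr : r ∈ OP m) (hs : s ∈ OP m) (h1 : p ≠ r)
    (h2 : p ≠ s) (h3 : r ≠ s) : 3 ≤ (OP m).card := by
  have : ({p, r, s} : Finset ℕ).card = 3 := card_eq_three.2 ⟨p, r, s, h1, h2, h3, rfl⟩
  rw [← this]
  refine card_le_card fun x hx => ?_
  simp only [mem_insert, mem_singleton] at hx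
  rcases hx with rfl | rfl | rfl <;> assumption

theorem two_of {m p r : ℕ} (hp : p ∈ OP m) (hr : r ∈ OP m) (h1 : p ≠ r) : 2 ≤ (OP m).card := by
  rw [← card_pair h1]
  refine card_le_card fun x hx => ?_
  simp only [mem_insert, mem_singleton] at hx
  rcases hx with rfl | rfl <;> assumption

/-- a small odd prime other than `p` whose square divides -/
def Sq (p m : ℕ) : Prop := ∃ q, q.Prime ∧ q ≠ 2 ∧ q ≠ p ∧ q ^ 2 ∣ m ∧ q ^ 2 ≤ 3 * p ^ 2

/-- the states met after a term `2 ^ a p ^ e` until the exponent of `2` has recovered -/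
def Inv (p m : ℕ) : Prop :=
  3 ≤ (OP m).card ∨ Sq p m ∨ (∃ a e, m = 2 ^ a * p ^ e * (2 * p + 1)) ∨
    (p % 4 = 3 ∧ ∃ a e X, 2 * X = 4 * p ^ 2 + 5 * p + 3 ∧ m = 2 ^ a * p ^ e * X)

theorem not_dvd1 {p : ℕ} (hp : p.Prime) : ¬ p ∣ 2 * p + 1 := fun h =>
  hp.one_lt.ne' (Nat.dvd_one.1 ((Nat.dvd_add_right (Dvd.intro_left 2 rfl)).1 h))

theorem not_dvd2 {p X : ℕ} (h11 : 11 ≤ p) (hX : 2 * X = 4 * p ^ 2 + 5 * p + 3) : ¬ p ∣ X := by
  intro h
  have h1 : p ∣ p * (4 * p + 5) + 3 := by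
    rw [show p * (4 * p + 5) + 3 = 2 * X by rw [hX]; ring]; exact h.mul_left _
  have := Nat.le_of_dvd (by norm_num) ((Nat.dvd_add_right (Dvd.intro _ rfl)).1 h1)
  omega

theorem odd2 {p X : ℕ} (h4 : p % 4 = 3) (hX : 2 * X = 4 * p ^ 2 + 5 * p + 3) : X % 2 = 1 := by
  have : p ^ 2 % 2 = 1 := by rw [Nat.pow_mod, show p % 2 = 1 by omega]
  omega

theorem cof_mem {m p c r : ℕ} (hm : m ≠ 0) (hd : c ∣ m) (ho : c % 2 = 1) (hn : ¬ p ∣ c)
    (hr : r.Prime) (h : r ∣ c) : r ∈ OP m ∧ r ≠ p := by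
  refine ⟨(mem_OP hm).2 ⟨hr, ?_, h.trans hd⟩, ?_⟩
  · rintro rfl; omega
  · rintro rfl; exact hn h

theorem Inv.two {p m : ℕ} (hm : m ≠ 0) (h11 : 11 ≤ p) (hp : p ∈ OP m) (h : Inv p m) :
    2 ≤ (OP m).card := by
  have pp := ((mem_OP hm).1 hp).1
  rcases h with h | ⟨q, h1, h2, h3, h4, -⟩ | ⟨a, e, h⟩ | ⟨h4, a, e, X, hX, h⟩
  · omega
  · exact two_of hp ((mem_OP hm).2 ⟨h1, h2, (dvd_pow_self q two_ne_zero).trans h4⟩) h3.symm
  · obtain ⟨r, hr, hd⟩ := Nat.exists_prime_and_dvd (by omega : 2 * p + 1 ≠ 1)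
    have := cof_mem hm (Dvd.intro_left _ h.symm) (by omega) (not_dvd1 pp) hr hd
    exact two_of hp this.1 this.2.symm
  · obtain ⟨r, hr, hd⟩ := Nat.exists_prime_and_dvd (by omega : X ≠ 1)
    have := cof_mem hm (Dvd.intro_left _ h.symm) (odd2 h4 hX) (not_dvd2 h11 hX) hr hd
    exact two_of hp this.1 this.2.symm

theorem two_new {p g : ℕ} (hp : p.Prime) (h11 : 11 ≤ p) (hg : p + 1 = 4 * g) :
    ∃ r s, r.Prime ∧ s.Prime ∧ r ≠ s ∧ r ∣ g ∧ s ∣ 8 * p ^ 2 + 6 * p + 7 := by
  have e : 8 * p ^ 2 + 6 * p + 7 = g * (4 * (8 * p - 2)) + 9 := by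
    obtain ⟨k, rfl⟩ : ∃ k, p = k + 1 := ⟨p - 1, by omega⟩
    rw [show 8 * (k + 1) - 2 = 8 * k + 6 by omega, ← mul_assoc, mul_comm g 4, ← hg]; ring
  by_contra hc
  push Not at hc
  obtain ⟨s0, hs0, ds0⟩ := Nat.exists_prime_and_dvd (by omega : 8 * p ^ 2 + 6 * p + 7 ≠ 1)
  obtain ⟨r0, hr0, dr0⟩ := Nat.exists_prime_and_dvd (by omega : g ≠ 1)
  have all : ∀ r s, r.Prime → s.Prime → r ∣ g → s ∣ 8 * p ^ 2 + 6 * p + 7 → r = 3 ∧ s = 3 := by
    intro r s hr hs dr ds
    have h1 : r = s := by by_contra h; exact hc r s hr hs h dr ds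
    subst h1
    rw [e] at ds
    have h9 : r ∣ 3 ^ 2 := (Nat.dvd_add_right (dr.mul_right _)).1 ds
    have := (Nat.prime_dvd_prime_iff_eq hr Nat.prime_three).1 (hr.dvd_of_dvd_pow h9)
    exact ⟨this, this⟩
  obtain ⟨b, k, e1⟩ := two_primes (by omega : g ≠ 0) Nat.prime_three Nat.prime_three
    fun r hr hd => Or.inl (all r s0 hr hs0 hd ds0).1
  obtain ⟨c, l, e2⟩ := two_primes (by omega : 8 * p ^ 2 + 6 * p + 7 ≠ 0) Nat.prime_three
    Nat.prime_three fun s hs hd => Or.inl (all r0 s hr0 hs dr0 hd).2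
  rw [← pow_add] at e1 e2
  generalize b + k = t at e1
  generalize c + l = u at e2
  have h27 : 27 ∣ 8 * p ^ 2 + 6 * p + 7 := by
    rw [e2]
    refine pow_dvd_pow 3 (show 3 ≤ u from ?_)
    by_contra hu
    have : 3 ^ u ≤ 3 ^ 2 := Nat.pow_le_pow_right (by norm_num) (by omega)
    omega
  rcases t with _ | _ | _ | t
  · omega
  · have : p = 11 := by omega
    subst this; norm_num at h27
  · have : p = 35 := by omega
    subst this; norm_num at hp
  · have : 27 ∣ g := by rw [e1]; exact pow_dvd_pow 3 (show 3 ≤ t + 1 + 1 + 1 by omega)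
    rw [e] at h27
    have := (Nat.dvd_add_right (this.mul_right _)).1 h27
    norm_num at this

theorem Inv.step {p m : ℕ} (hm : m ≠ 0) (h11 : 11 ≤ p) (hp : p ∈ OP m) (hp' : p ∣ F m)
    (hv : (F m).factorization 2 ≤ m.factorization 2) (h : Inv p m) : Inv p (F m) := by
  have pp := ((mem_OP hm).1 hp).1
  obtain ⟨h2, q, hqp, hT, e4⟩ := flat hm hp (h.two hm h11 hp) hv
  obtain ⟨Z, hZ, -, hF⟩ := pair_step hm h2 hqp.symm hT
  have mq : q ∈ OP m := by simp [hT]
  have pq := ((mem_OP hm).1 mq).1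
  have op := OP_odd hp
  have oq := OP_odd mq
  have hF0 := F_ne hm hp
  have mp' : p ∈ OP (F m) := (mem_OP hF0).2 ⟨pp, by omega, hp'⟩
  have Zodd : Z % 2 = 1 := by
    have : p * q % 4 = 1 := by
      rw [Nat.mul_mod, ← e4]
      rcases (by omega : p % 4 = 1 ∨ p % 4 = 3) with h | h <;> rw [h]
    omega
  have uniq : ∀ r, r ∈ OP m → r ≠ p → r = q := by
    intro r hr hne
    rw [hT] at hr
    simpa [hne] using hr
  have cop : ∀ r k x, r.Prime → r ≠ p → r ^ k ∣ x * p → r ^ k ∣ x := fun r k x hr hne hd =>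
    (Nat.Coprime.pow_left k ((Nat.coprime_primes hr pp).2 hne)).dvd_of_dvd_mul_right hd
  have sq : Sq p m → Inv p (F m) := by
    rintro ⟨q0, h1, h2', h3, h4, h5⟩
    obtain rfl : q0 = q :=
      uniq q0 ((mem_OP hm).2 ⟨h1, h2', (dvd_pow_self q0 two_ne_zero).trans h4⟩) h3
    obtain ⟨t, ht⟩ := h4
    have e : F m * p = q0 * t * Z := by
      refine Nat.eq_of_mul_eq_mul_right h1.pos ?_
      rw [mul_assoc, hF]; nth_rewrite 1 [ht]; ring
    by_cases hz : q0 ∣ Z
    · refine Or.inr (Or.inl ⟨q0, h1, h2', h3, cop q0 2 _ h1 h3 ?_, h5⟩)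
      rw [e, pow_two, mul_assoc]
      exact mul_dvd_mul_left _ (hz.mul_left _)
    by_cases hall : ∀ r, r.Prime → r ∣ Z → r = p
    · exfalso
      obtain ⟨b, k, e1⟩ := two_primes (by omega : Z ≠ 0) pp pp fun r hr hd => Or.inl (hall r hr hd)
      rw [← pow_add] at e1
      have h4 := (pow_cases op.2 oq.2 (e1 ▸ hZ)).resolve_left (by omega)
      have h6 : p ^ 4 ≤ Z := e1 ▸ Nat.pow_le_pow_right (by omega) h4
      have h7 : q0 ≤ 2 * p := by nlinarith
      have h8 : p * q0 ≤ p * (2 * p) := Nat.mul_le_mul_left _ h7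
      have h9 : 121 * p ^ 2 ≤ p ^ 4 := by nlinarith [Nat.mul_le_mul h11 h11]
      nlinarith
    · push Not at hall
      obtain ⟨r, hr, hd, hne⟩ := hall
      have d1 : r ∣ F m := by
        have := cop r 1 (F m) hr hne (by rw [e, pow_one]; exact hd.mul_left _)
        rwa [pow_one] at this
      have d2 : q0 ∣ F m := by
        have := cop q0 1 (F m) h1 h3 (by rw [e, pow_one, mul_assoc]; exact Dvd.intro _ rfl)
        rwa [pow_one] at this
      refine Or.inl (three_of mp' ((mem_OP hF0).2 ⟨hr, ?_, d1⟩) ((mem_OP hF0).2 ⟨h1, h2', d2⟩)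
        hne.symm h3.symm ?_)
      · rintro rfl; omega
      · rintro rfl; exact hz hd
  rcases h with h | h | ⟨a, e, h⟩ | ⟨h4, a, e, X, hX, h⟩
  · rw [hT, card_pair hqp.symm] at h; omega
  · exact sq h
  · have dm : 2 * p + 1 ∣ m := Dvd.intro_left _ h.symm
    rcases pp_or_sq (by omega : 1 < 2 * p + 1) pq fun r hr hd => by
      have := cof_mem hm dm (by omega) (not_dvd1 pp) hr hd
      exact uniq r this.1 this.2 with h1 | h1
    · refine Or.inr (Or.inr (Or.inr ⟨by omega, a, e - 1, Z, by rw [hZ, ← h1]; ring, ?_⟩))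
      have e1 : e ≠ 0 := by
        rintro rfl
        have d := ((mem_OP hm).1 hp).2.2
        rw [h, pow_zero, mul_one] at d
        rcases (Nat.Prime.dvd_mul pp).1 d with d | d
        · have := (Nat.prime_dvd_prime_iff_eq pp Nat.prime_two).1 (pp.dvd_of_dvd_pow d)
          omega
        · exact not_dvd1 pp d
      obtain ⟨e, rfl⟩ : ∃ t, e = t + 1 := ⟨e - 1, by omega⟩
      refine Nat.eq_of_mul_eq_mul_right (Nat.mul_pos pp.pos pq.pos) ?_
      rw [hF, Nat.add_sub_cancel]; nth_rewrite 1 [h]; rw [h1]; ring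
    · refine sq ⟨q, pq, by omega, hqp, h1.trans dm, ?_⟩
      have := Nat.le_of_dvd (by omega) h1
      nlinarith
  · have dm : X ∣ m := Dvd.intro_left _ h.symm
    rcases pp_or_sq (by omega : 1 < X) pq fun r hr hd => by
      have := cof_mem hm dm (odd2 h4 hX) (not_dvd2 h11 hX) hr hd
      exact uniq r this.1 this.2 with h1 | h1
    · subst h1
      obtain ⟨g, hg⟩ : ∃ g, p + 1 = 4 * g := ⟨(p + 1) / 4, by omega⟩
      have eZ : Z = g * (8 * p ^ 2 + 6 * p + 7) := by
        refine Nat.eq_of_mul_eq_mul_left (by norm_num : 0 < 4) ?_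
        rw [← mul_assoc, ← hg]
        have : 4 * Z = (2 * p + 1) * (2 * X) + 2 * p + 4 := by linarith
        rw [this, hX]; ring
      have e : F m * p = 2 ^ a * p ^ e * Z := by
        refine Nat.eq_of_mul_eq_mul_right pq.pos ?_
        rw [mul_assoc, hF]; nth_rewrite 1 [h]; ring
      obtain ⟨r, s, hr, hs, hrs, dr, ds⟩ := two_new pp h11 hg
      have dr' : r ∣ Z := eZ ▸ dr.mul_right _
      have ds' : s ∣ Z := eZ ▸ ds.mul_left _
      have nr : r ≠ p := by
        rintro rfl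
        have := Nat.le_of_dvd (by omega) dr
        omega
      have ns : s ≠ p := by
        rintro rfl
        rw [show 8 * s ^ 2 + 6 * s + 7 = s * (8 * s + 6) + 7 by ring] at ds
        have := Nat.le_of_dvd (by norm_num) ((Nat.dvd_add_right (Dvd.intro _ rfl)).1 ds)
        omega
      have mem : ∀ r, r.Prime → r ≠ p → r ∣ Z → r ∈ OP (F m) := by
        intro r hr hne hd
        have := cop r 1 (F m) hr hne (by rw [e, pow_one]; exact hd.mul_left _)
        rw [pow_one] at this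
        refine (mem_OP hF0).2 ⟨hr, ?_, this⟩
        rintro rfl; omega
      exact Or.inl (three_of mp' (mem r hr nr dr') (mem s hs ns ds') nr.symm ns.symm hrs)
    · refine sq ⟨q, pq, by omega, hqp, h1.trans dm, ?_⟩
      have := Nat.le_of_dvd (by omega) h1
      nlinarith

theorem pure_step {p m : ℕ} (hm : m ≠ 0) (h2 : 2 ∣ m) (hT : OP m = {p}) : Inv p (F m) := by
  have hp : p ∈ OP m := by simp [hT]
  obtain ⟨pp, p2, dp⟩ := (mem_OP hm).1 hp
  obtain ⟨a, e, h⟩ := two_primes hm Nat.prime_two pp fun r hr hd => by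
    by_cases h : r = 2
    · exact Or.inl h
    · have := (mem_OP hm).2 ⟨hr, h, hd⟩
      right; simpa [hT] using this
  have a0 : a ≠ 0 := by
    rintro rfl
    rw [h, pow_zero, one_mul] at h2
    exact p2 ((Nat.prime_dvd_prime_iff_eq Nat.prime_two pp).1
      (Nat.prime_two.dvd_of_dvd_pow h2)).symm
  have e0 : e ≠ 0 := by
    rintro rfl
    rw [h, pow_zero, mul_one] at dp
    exact p2 ((Nat.prime_dvd_prime_iff_eq pp Nat.prime_two).1 (pp.dvd_of_dvd_pow dp))
  obtain ⟨a, rfl⟩ : ∃ t, a = t + 1 := ⟨a - 1, by omega⟩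
  obtain ⟨e, rfl⟩ : ∃ t, e = t + 1 := ⟨e - 1, by omega⟩
  refine Or.inr (Or.inr (Or.inl ⟨a, e, ?_⟩))
  have hs := step_eq hm hp
  have hY : Y m.primeFactors = 2 * (2 * p + 1) := by
    rw [Y_even hm h2, hT, PA, PB, prod_singleton, prod_singleton]
    have := pp.pos
    omega
  rw [hY, pf_even hm h2, prod_insert (two_notMem m), hT, prod_singleton] at hs
  refine Nat.eq_of_mul_eq_mul_right (Nat.mul_pos (by norm_num : 0 < 4) pp.pos) ?_
  calc F m * (4 * p) = m * (2 * (2 * p + 1)) := by rw [← hs]; ring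
    _ = _ := by nth_rewrite 1 [h]; ring

/-- along a stretch of terms divisible by the odd prime `p` the exponent of `2` never falls by
more than one below an earlier value -/
theorem v2_almost {n : ℕ → ℕ} (hn : ∀ s, n (s + 1) = F (n s)) (h0 : ∀ s, n s ≠ 0) {p i j : ℕ}
    (hp : ∀ s, i ≤ s → s ≤ j → p ∈ OP (n s))
    (hpure : ∀ s, OP (n s) = {p} → 2 ∣ n s ∧ 11 ≤ p) {s : ℕ} (h1 : i ≤ s) (h2 : s ≤ j) :
    (n i).factorization 2 ≤ (n s).factorization 2 + 1 := by
  have key : ∀ s, i ≤ s → s ≤ j → (n i).factorization 2 ≤ (n s).factorization 2 ∨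
      ((n i).factorization 2 = (n s).factorization 2 + 1 ∧ 11 ≤ p ∧ Inv p (n s)) := by
    intro s hs
    induction s, hs using Nat.le_induction with
    | base => exact fun _ => Or.inl le_rfl
    | succ s hs ih =>
      intro hj
      have mp := hp s hs (by omega)
      have mp' := hp (s + 1) (by omega) hj
      have hv := v2_step (h0 s) mp
      rw [hn] at mp' ⊢
      rcases ih (by omega) with h | ⟨h, h11, hi⟩
      · by_cases hc : 2 ≤ (OP (n s)).card
        · left; omega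
        · have hT : OP (n s) = {p} :=
            eq_singleton_iff_unique_mem.2 ⟨mp, fun x hx => by
              by_contra hne
              exact hc (two_of hx mp hne)⟩
          have hc1 : (OP (n s)).card = 1 := by rw [hT, card_singleton]
          obtain ⟨e2, h11⟩ := hpure s hT
          by_cases hle : (n i).factorization 2 ≤ (F (n s)).factorization 2
          · exact Or.inl hle
          · exact Or.inr ⟨by omega, h11, pure_step (h0 s) e2 hT⟩
      · have hc := hi.two (h0 s) h11 mp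
        by_cases hle : (n i).factorization 2 ≤ (F (n s)).factorization 2
        · exact Or.inl hle
        · exact Or.inr ⟨by omega, h11, hi.step (h0 s) h11 mp
            (Nat.dvd_of_mem_primeFactors (mem_erase.1 mp').2) (by omega)⟩
  rcases key s h1 h2 with h | h <;> omega

end Pool.Agent.MP_bacbeb_nt.Wall

end
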