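import Pool.Agent.MP_bacbeb_nt.Mg.WallC
import Pool.Agent.MP_bacbeb_nt.Mg.Main

/-! Orbits with boundedly many primes end in a recurrence `n (s + k) = 2 ^ x p ^ y n s`. -/

set_option autoImplicit false

namespace Pool.Agent.MP_bacbeb_nt.Wall

open Finset

theorem Y_ge (T : Finset ℕ) (h : ∀ r ∈ T, 1 ≤ r) :
    2 * ∏ r ∈ T, r ≤ Y T ∧ (T.Nonempty → PA T < PB T) ∧ (2 ≤ T.card → 2 * ∏ r ∈ T, r < Y T) := by
  induction T using Finset.induction_on with
  | empty => simp [Y, PA, PB]
  | insert a s ha ih =>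
    obtain ⟨h1, h2, -⟩ := ih fun r hr => h r (mem_insert_of_mem hr)
    obtain ⟨b, rfl⟩ := Nat.exists_eq_add_of_le' (h a (mem_insert_self _ _))
    have h3 := PA_le s
    have h4 := PB_pos s
    have eA : PA (insert (b + 1) s) = b * PA s := by rw [PA, prod_insert ha]; rfl
    have eB : PB (insert (b + 1) s) = (b + 1 + 1) * PB s := by rw [PB, prod_insert ha]; rfl
    have h5 := Nat.mul_le_mul_left (b + 1) h1
    rw [Y] at h5
    rw [Y, eA, eB, prod_insert ha, card_insert_of_notMem ha]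
    refine ⟨by nlinarith, fun _ => by nlinarith [Nat.mul_le_mul_left b h3], fun hc => ?_⟩
    have := h2 (card_pos.1 (by omega))
    nlinarith

theorem lt_F {m p : ℕ} (hm : m ≠ 0) (hp : p ∈ OP m) (hc : 2 ≤ m.primeFactors.card) : m < F m := by
  have h1 := (Y_ge m.primeFactors fun r hr => (Nat.prime_of_mem_primeFactors hr).pos).2.2 hc
  have h2 := step_eq hm hp
  by_contra h
  have h3 := Nat.mul_le_mul_right (2 * ∏ r ∈ m.primeFactors, r) (not_lt.1 h)
  have h4 := Nat.mul_lt_mul_of_pos_left h1 (Nat.pos_of_ne_zero hm)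
  nlinarith

theorem F_mul {m p d : ℕ} (hm : m ≠ 0) (hp : p ∈ OP m) (hd : d ≠ 0)
    (h : ∀ r, r.Prime → r ∣ d → r ∣ m) : F (d * m) = d * F m := by
  have e : (d * m).primeFactors = m.primeFactors := by
    rw [Nat.primeFactors_mul hd hm]
    exact union_eq_right.2 fun r hr => Nat.mem_primeFactors.2
      ⟨Nat.prime_of_mem_primeFactors hr, h r (Nat.prime_of_mem_primeFactors hr)
        (Nat.dvd_of_mem_primeFactors hr), hm⟩
  have h1 := step_eq (mul_ne_zero hd hm) (p := p) (by rwa [OP, e])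
  have h2 := step_eq hm hp
  rw [e] at h1
  have hrad : 0 < 2 * ∏ r ∈ m.primeFactors, r :=
    Nat.mul_pos two_pos (prod_pos fun r hr => (Nat.prime_of_mem_primeFactors hr).pos)
  refine Nat.eq_of_mul_eq_mul_right hrad ?_
  calc F (d * m) * (2 * ∏ r ∈ m.primeFactors, r) = d * (m * Y m.primeFactors) := by linarith
    _ = _ := by rw [← h2]; ring

/-- a recurrence, once closed, repeats for ever -/
theorem wall {n : ℕ → ℕ} (hn : ∀ s, n (s + 1) = F (n s)) {t k d : ℕ} (hk : 1 ≤ k) (hd : d ≠ 0)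
    (h : n (t + k) = d * n t)
    (hs : ∀ s, t ≤ s → s < t + k →
      n s ≠ 0 ∧ (OP (n s)).Nonempty ∧ ∀ r, r.Prime → r ∣ d → r ∣ n s) :
    ∀ s, t ≤ s → n (s + k) = d * n s := by
  have key : ∀ s, t ≤ s → n (s + k) = d * n s ∧
      (n s ≠ 0 ∧ (OP (n s)).Nonempty ∧ ∀ r, r.Prime → r ∣ d → r ∣ n s) := by
    intro s
    induction s using Nat.strong_induction_on with
    | _ s ih =>
      intro hts
      refine ⟨?_, ?_⟩
      · rcases hts.lt_or_eq with h1 | h1
        · obtain ⟨u, rfl⟩ : ∃ u, s = u + 1 := ⟨s - 1, by omega⟩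
          obtain ⟨e, h0, ⟨p, hp⟩, h2⟩ := ih u (by omega) (by omega)
          rw [show u + 1 + k = u + k + 1 by ring, hn, hn, e, F_mul h0 hp hd h2]
        · rw [← h1]; exact h
      · by_cases h1 : s < t + k
        · exact hs s hts h1
        · obtain ⟨u, rfl⟩ : ∃ u, s = u + k := ⟨s - k, by omega⟩
          obtain ⟨e, h0, ⟨p, hp⟩, -⟩ := ih u (by omega) (by omega)
          have h3 := mul_ne_zero hd h0
          obtain ⟨a, b, c⟩ := (mem_OP h0).1 hp
          rw [e]
          exact ⟨h3, ⟨p, (mem_OP h3).2 ⟨a, b, c.mul_left _⟩⟩, fun r _ hr => hr.mul_right _⟩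
  exact fun s h => (key s h).1

theorem le_box {x B E : ℕ} (hx : x ≠ 0) (hB : 1 ≤ B)
    (h : ∀ r ∈ x.primeFactors, r ≤ B ∧ x.factorization r ≤ E) : x ≤ (B ^ E) ^ (B + 1) := by
  have e := Nat.prod_factorization_pow_eq_self hx
  rw [Finsupp.prod, Nat.support_factorization] at e
  have h1 : x.primeFactors.card ≤ B + 1 := by
    rw [← card_range (B + 1)]
    exact card_le_card fun r hr => mem_range.2 (Nat.lt_succ_of_le (h r hr).1)
  calc x = ∏ r ∈ x.primeFactors, r ^ x.factorization r := e.symm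
    _ ≤ (B ^ E) ^ x.primeFactors.card := prod_le_pow_card _ _ _ fun r hr =>
        (Nat.pow_le_pow_left (h r hr).1 _).trans (Nat.pow_le_pow_right hB (h r hr).2)
    _ ≤ _ := Nat.pow_le_pow_right (pow_pos hB _) h1

/-- splitting off the powers of `2` and of `p` -/
theorem split {m p B E : ℕ} (hm : m ≠ 0) (hp : p.Prime) (h2 : p ≠ 2) (hB : 1 ≤ B)
    (hb : ∀ r ∈ m.primeFactors, r ≤ B)
    (h : ∀ r ∈ OP m, r ≠ p → m.factorization r ≤ E) :
    ∃ c, c ≠ 0 ∧ c ≤ (B ^ E) ^ (B + 1) ∧
      m = 2 ^ m.factorization 2 * p ^ m.factorization p * c := by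
  obtain ⟨a, m1, n1, e1⟩ := Nat.exists_eq_pow_mul_and_not_dvd hm 2 (by norm_num)
  have z1 : m1 ≠ 0 := by rintro rfl; simp at n1
  obtain ⟨e, c, n2, e2⟩ := Nat.exists_eq_pow_mul_and_not_dvd z1 p hp.ne_one
  have z2 : c ≠ 0 := by rintro rfl; simp at n2
  have n3 : ¬ 2 ∣ c := fun hc => n1 (e2 ▸ hc.mul_left _)
  have em : m = 2 ^ a * p ^ e * c := by rw [e1, e2]; ring
  have fa : ∀ r, m.factorization r =
      (if 2 = r then a else 0) + (if p = r then e else 0) + c.factorization r := by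
    intro r
    conv_lhs => rw [em]
    rw [Nat.factorization_mul (mul_ne_zero (by positivity) (pow_ne_zero _ hp.ne_zero)) z2,
      Nat.factorization_mul (by positivity) (pow_ne_zero _ hp.ne_zero),
      Nat.prime_two.factorization_pow, hp.factorization_pow]
    simp only [Finsupp.coe_add, Pi.add_apply, Finsupp.single_apply]
  have f2 : m.factorization 2 = a := by
    rw [fa, if_pos rfl, if_neg h2, Nat.factorization_eq_zero_of_not_dvd n3]; rfl
  have fp : m.factorization p = e := by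
    rw [fa, if_neg h2.symm, if_pos rfl, Nat.factorization_eq_zero_of_not_dvd n2]; omega
  refine ⟨c, z2, le_box z2 hB fun r hr => ?_, by rw [f2, fp]; exact em⟩
  have pr := Nat.prime_of_mem_primeFactors hr
  have dr := Nat.dvd_of_mem_primeFactors hr
  have dm : r ∣ m := em ▸ dr.mul_left _
  have r2 : r ≠ 2 := by rintro rfl; exact n3 dr
  have rp : r ≠ p := by rintro rfl; exact n2 dr
  refine ⟨hb r (Nat.mem_primeFactors.2 ⟨pr, dm, hm⟩), ?_⟩
  have := h r ((mem_OP hm).2 ⟨pr, r2, dm⟩) rp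
  have := fa r
  omega

theorem W_split {a e c p : ℕ} (hp : p.Prime) (hc : c ≠ 0) :
    W (2 ^ a * p ^ e * c) = w p ^ e * W c := by
  rw [W_mul (mul_ne_zero (by positivity) (pow_ne_zero _ hp.ne_zero)) hc,
    W_mul (by positivity) (pow_ne_zero _ hp.ne_zero), W_two, W_pow hp, one_mul]

theorem W_box {m B E : ℕ} (hm : m ≠ 0) (hB : 1 ≤ B) (hb : ∀ r ∈ m.primeFactors, r ≤ B)
    (h : ∀ r ∈ OP m, m.factorization r ≤ E) : W m ≤ 3 ^ E * ((B ^ E) ^ (B + 1) : ℕ) := by
  obtain ⟨c, c0, c1, e⟩ := split hm Nat.prime_three (by norm_num) hB hb fun r hr _ => h r hr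
  have h3 : m.factorization 3 ≤ E := by
    by_cases h3 : 3 ∣ m
    · exact h 3 ((mem_OP hm).2 ⟨Nat.prime_three, by norm_num, h3⟩)
    · rw [Nat.factorization_eq_zero_of_not_dvd h3]; omega
  rw [e, W_split Nat.prime_three c0]
  have a1 : w 3 ^ m.factorization 3 ≤ 3 ^ E :=
    (pow_le_pow_left₀ (by norm_num [w]) (by norm_num [w]) _).trans
      (pow_le_pow_right₀ (by norm_num) h3)
  have a2 : W c ≤ ((B ^ E) ^ (B + 1) : ℕ) := (W_le c0).trans (by exact_mod_cast c1)
  exact mul_le_mul a1 a2 (zero_le_one.trans (one_le_W c)) (by positivity)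

theorem val_lt_W {m r : ℕ} (hm : m ≠ 0) (hr : r ∈ OP m) : (m.factorization r : ℚ) < W m := by
  obtain ⟨pr, r2, -⟩ := (mem_OP hm).1 hr
  have e := Nat.ordProj_mul_ordCompl_eq_self m r
  have c0 : ordCompl[r] m ≠ 0 := (Nat.ordCompl_pos r hm).ne'
  have h1 : W m = w r ^ m.factorization r * W (ordCompl[r] m) := by
    conv_lhs => rw [← e]
    rw [W_mul (pow_ne_zero _ pr.ne_zero) c0, W_pow pr]
  have h2 : (2 : ℚ) ≤ w r := by
    have : (3 : ℚ) ≤ r := by exact_mod_cast (OP_odd hr).2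
    rw [w_odd r2]; linarith
  have h3 : (m.factorization r : ℚ) < 2 ^ m.factorization r := by
    exact_mod_cast Nat.lt_two_pow_self
  have h4 := pow_le_pow_left₀ (by norm_num) h2 (m.factorization r)
  have h5 := one_le_W (ordCompl[r] m)
  rw [h1]
  nlinarith [pow_pos (show (0 : ℚ) < 2 by norm_num) (m.factorization r)]

theorem exists_theta (s : Finset ℚ) : ∃ t : ℚ, 0 < t ∧ t < 1 ∧ ∀ x ∈ s, x < 1 → x ≤ t := by
  induction s using Finset.induction_on with
  | empty => exact ⟨1 / 2, by norm_num, by norm_num, by simp⟩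
  | insert a s _ ih =>
    obtain ⟨t, h0, h1, h2⟩ := ih
    by_cases ha : a < 1
    · refine ⟨max a t, lt_max_of_lt_right h0, max_lt ha h1, fun x hx hx1 => ?_⟩
      rcases mem_insert.1 hx with rfl | hx
      · exact le_max_left _ _
      · exact le_max_of_le_right (h2 x hx hx1)
    · refine ⟨t, h0, h1, fun x hx hx1 => ?_⟩
      rcases mem_insert.1 hx with rfl | hx
      · exact absurd hx1 ha
      · exact h2 x hx hx1

/-- an orbit with bounded primes that avoids the cases settled by the smooth analysis -/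
structure Orb (n : ℕ → ℕ) (B : ℕ) : Prop where
  step : ∀ s, n (s + 1) = F (n s)
  ne : ∀ s, n s ≠ 0
  odd : ∀ s, (OP (n s)).Nonempty
  two : ∀ s, 2 ≤ (n s).primeFactors.card
  bd : ∀ s, ∀ r ∈ (n s).primeFactors, r ≤ B
  pure : ∀ s p, OP (n s) = {p} → 2 ∣ n s ∧ 11 ≤ p
  n37 : ∀ s, OP (n s) ≠ {3, 7}

/-- the conclusion -/
def Rec (n : ℕ → ℕ) : Prop :=
  ∃ i k x y p, 1 ≤ k ∧ Nat.Prime p ∧ ∀ s, i ≤ s → n (s + k) = 2 ^ x * p ^ y * n s

namespace Orb

variable {n : ℕ → ℕ} {B : ℕ} (H : Orb n B)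
include H

theorem B_pos : 1 ≤ B := by
  obtain ⟨p, hp⟩ := H.odd 0
  have := H.bd 0 p (mem_erase.1 hp).2
  have := OP_odd hp
  omega

theorem mem (s : ℕ) : (n s).primeFactors ∈ (range (B + 1)).powerset :=
  mem_powerset.2 fun r hr => mem_range.2 (Nat.lt_succ_of_le (H.bd s r hr))

theorem mono : StrictMono n := strictMono_nat_of_lt_succ fun s => by
  obtain ⟨p, hp⟩ := H.odd s
  rw [H.step]; exact lt_F (H.ne s) hp (H.two s)

theorem Wstep (s : ℕ) : W (n (s + 1)) = rho (n s).primeFactors * W (n s) := by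
  obtain ⟨p, hp⟩ := H.odd s
  rw [H.step, W_step (H.ne s) hp]

theorem consts : ∃ c : ℕ, 2 ≤ c ∧ (∀ s, W (n (s + 1)) ≤ c * W (n s)) ∧
    (∀ s r k, (n (s + k)).factorization r ≤ (n s).factorization r + c * k) := by
  obtain ⟨c, hc⟩ : ∃ c, ∀ s, Y (n s).primeFactors ≤ c :=
    ⟨∑ T ∈ (range (B + 1)).powerset, Y T, fun s =>
      single_le_sum (f := Y) (fun _ _ => Nat.zero_le _) (H.mem s)⟩
  refine ⟨c + 2, by omega, fun s => ?_, fun s r k => ?_⟩
  · rw [H.Wstep]
    refine mul_le_mul_of_nonneg_right ?_ (zero_le_one.trans (one_le_W _))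
    refine rho_le (k := 0) (by simp) ?_
    have h1 := one_le_D (n s)
    have h2 : (Y (n s).primeFactors : ℚ) ≤ c := by exact_mod_cast hc s
    have h3 : (0 : ℚ) ≤ c := by positivity
    push_cast
    nlinarith
  · induction k with
    | zero => simp
    | succ k ih =>
      obtain ⟨p, hp⟩ := H.odd (s + k)
      have h1 := val_step (H.ne _) hp r
      have h2 := Nat.factorization_lt r (Y_ne (n (s + k)).primeFactors)
      have h3 := hc (s + k)
      rw [← add_assoc, H.step, mul_add (c + 2)]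
      omega

theorem down (s k : ℕ) {r : ℕ} (hr : r ≠ 2) :
    (n s).factorization r ≤ (n (s + k)).factorization r + k := by
  induction k with
  | zero => simp
  | succ k ih =>
    obtain ⟨p, hp⟩ := H.odd (s + k)
    have h1 := val_step (H.ne _) hp r
    rw [if_neg hr] at h1
    rw [← add_assoc s, H.step]
    split_ifs at h1 <;> omega

omit H in
theorem mem_of_val {s r : ℕ} (hr : r ≠ 2) (h : 1 ≤ (n s).factorization r) : r ∈ OP (n s) :=
  mem_erase.2 ⟨hr, by rw [← Nat.support_factorization, Finsupp.mem_support_iff]; omega⟩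

theorem decay {c : ℕ} (c2 : 2 ≤ c) (hc : ∀ s, W (n (s + 1)) ≤ c * W (n s)) :
    ∃ t : ℚ, 0 < t ∧ t < 1 ∧ ∀ p q, p ≠ q → ∀ k i,
      (∀ s, i ≤ s → s ≤ i + k → p ∈ OP (n s) ∧ q ∈ OP (n s)) →
      W (n (i + k)) ≤ c * t ^ (k / 2) * W (n i) := by
  obtain ⟨t, t0, t1, ht⟩ := exists_theta (((range (B + 1)).powerset.image rho) ∪
    image₂ (fun S T => rho S * rho T) (range (B + 1)).powerset (range (B + 1)).powerset)
  refine ⟨t, t0, t1, fun p q hpq k => ?_⟩
  have c1 : (1 : ℚ) ≤ c := by exact_mod_cast (by omega : 1 ≤ c)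
  induction k using Nat.strong_induction_on with
  | _ k ih =>
    intro i h
    have wi := one_le_W (n i)
    rcases k with _ | _ | k
    · simp only [add_zero, Nat.zero_div, pow_zero, mul_one]; nlinarith
    · simpa using hc i
    have m0 := h i le_rfl (by omega)
    have m1 := h (i + 1) (by omega) (by omega)
    rw [H.step] at m1
    have e : (k + 1 + 1) / 2 = k / 2 + 1 := by omega
    rcases claimA (H.ne i) m0.1 m0.2 hpq (Nat.dvd_of_mem_primeFactors (mem_erase.1 m1.1).2)
      (Nat.dvd_of_mem_primeFactors (mem_erase.1 m1.2).2) (H.n37 i) with h1 | h1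
    · have a1 := ht _ (mem_union_left _ (mem_image_of_mem _ (H.mem i))) h1
      have a2 := ih (k + 1) (by omega) (i + 1) fun s h1 h2 => h s (by omega) (by omega)
      have a3 : W (n (i + 1)) ≤ t * W (n i) := by
        rw [H.Wstep]; exact mul_le_mul_of_nonneg_right a1 (by linarith)
      have a4 : t ^ ((k + 1) / 2) ≤ t ^ (k / 2) := pow_le_pow_of_le_one t0.le t1.le (by omega)
      rw [show i + (k + 1 + 1) = i + 1 + (k + 1) by ring, e, pow_succ]
      calc _ ≤ c * t ^ ((k + 1) / 2) * W (n (i + 1)) := a2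
        _ ≤ c * t ^ (k / 2) * (t * W (n i)) := by
          have := one_le_W (n (i + 1))
          gcongr
        _ = _ := by ring
    · rw [← H.step] at h1
      have a1 := ht _ (mem_union_right _ (mem_image₂_of_mem (H.mem i) (H.mem (i + 1)))) h1
      have a2 := ih k (by omega) (i + 1 + 1) fun s h1 h2 => h s (by omega) (by omega)
      have a3 : W (n (i + 1 + 1)) ≤ t * W (n i) := by
        rw [H.Wstep, H.Wstep, ← mul_assoc, mul_comm (rho _)]
        exact mul_le_mul_of_nonneg_right a1 (by linarith)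
      rw [show i + (k + 1 + 1) = i + 1 + 1 + k by ring, e, pow_succ]
      calc _ ≤ c * t ^ (k / 2) * W (n (i + 1 + 1)) := a2
        _ ≤ c * t ^ (k / 2) * (t * W (n i)) := by gcongr
        _ = _ := by ring

theorem bounded {M : ℕ} (h : ∀ s, W (n s) ≤ M) : Rec n := by
  have hv : ∀ s, ∀ r ∈ OP (n s), (n s).factorization r ≤ M := fun s r hr => by
    have := (val_lt_W (H.ne s) hr).trans_le (h s)
    exact_mod_cast this.le
  choose c c0 c1 c2 using fun s => split (E := M) (H.ne s) Nat.prime_three (by norm_num) H.B_pos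
    (H.bd s) fun r hr _ => hv s r hr
  set G := (B ^ M) ^ (B + 1)
  let o : ℕ → ℕ := fun s => 3 ^ (n s).factorization 3 * c s
  have o1 : ∀ s, o s ≤ 3 ^ M * G := fun s => by
    refine Nat.mul_le_mul (Nat.pow_le_pow_right (by norm_num) ?_) (c1 s)
    by_cases h3 : 3 ∣ n s
    · exact hv s 3 ((mem_OP (H.ne s)).2 ⟨Nat.prime_three, by norm_num, h3⟩)
    · rw [Nat.factorization_eq_zero_of_not_dvd h3]; omega
  have o2 : ∀ s, n s = 2 ^ (n s).factorization 2 * o s := fun s => by
    rw [← mul_assoc]; exact c2 s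
  set L := 3 ^ M * G
  have ev : ∀ s, L < s → 2 ∣ n s := fun s hs => by
    by_contra h2
    have := o2 s
    rw [Nat.factorization_eq_zero_of_not_dvd h2, pow_zero, one_mul] at this
    have := o1 s
    have := H.mono.id_le s
    simp only [id] at this
    omega
  obtain ⟨a, ha, b, hb, hab, e⟩ := exists_ne_map_eq_of_card_lt_of_maps_to
    (s := Icc (L + 1) (2 * L + 2)) (t := range (L + 1)) (f := o) (by simp; omega)
    fun s _ => mem_range.2 (Nat.lt_succ_of_le (o1 s))
  wlog hlt : a < b generalizing a b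
  · exact this b hb a ha hab.symm e.symm (by omega)
  have ha' := (mem_Icc.1 ha).1
  have hlt' := H.mono hlt
  have hv2 : (n a).factorization 2 ≤ (n b).factorization 2 := by
    by_contra hc
    have : 2 ^ (n b).factorization 2 ≤ 2 ^ (n a).factorization 2 :=
      Nat.pow_le_pow_right (by norm_num) (by omega)
    have := Nat.mul_le_mul_right (o a) this
    rw [← o2 a, e, ← o2 b] at this
    omega
  obtain ⟨x, hx⟩ := Nat.exists_eq_add_of_le hv2
  obtain ⟨k, rfl⟩ := Nat.exists_eq_add_of_le hlt.le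
  refine ⟨a, k, x, 0, 2, by omega, Nat.prime_two, ?_⟩
  rw [pow_zero, mul_one]
  refine wall H.step (by omega) (by positivity) ?_ fun s h1 _ => ⟨H.ne s, H.odd s, fun r hr hd => ?_⟩
  · rw [o2 (a + k), hx, ← e]; nth_rewrite 2 [o2 a]; ring
  · rw [(Nat.prime_dvd_prime_iff_eq hr Nat.prime_two).1 (hr.dvd_of_dvd_pow hd)]
    exact ev s (by omega)

/-- two terms of a stretch with the same cofactor close a recurrence -/
theorem close {p i j t u c : ℕ} (hp : ∀ s, i ≤ s → s ≤ j → p ∈ OP (n s)) (h1 : i ≤ t)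
    (h2 : t < u) (h3 : u ≤ j) (c0 : c ≠ 0)
    (e1 : n t = 2 ^ (n t).factorization 2 * p ^ (n t).factorization p * c)
    (e2 : n u = 2 ^ (n u).factorization 2 * p ^ (n u).factorization p * c)
    (hW : W (n t) ≤ W (n u)) (hv : (n t).factorization 2 ≤ (n u).factorization 2)
    (hv' : min ((n t).factorization 2) 2 = min ((n u).factorization 2) 2) : Rec n := by
  have mp := hp t h1 (by omega)
  have pp := ((mem_OP (H.ne t)).1 mp).1
  have he : (n t).factorization p ≤ (n u).factorization p := by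
    rw [e1, e2, W_split pp c0, W_split pp c0] at hW
    have h4 : 1 < w p := by
      have : (3 : ℚ) ≤ p := by exact_mod_cast (OP_odd mp).2
      rw [w_odd (mem_erase.1 mp).1]; linarith
    have := one_le_W c
    exact (pow_le_pow_iff_right₀ h4).1 (le_of_mul_le_mul_right hW (by linarith))
  obtain ⟨x, hx⟩ := Nat.exists_eq_add_of_le hv
  obtain ⟨y, hy⟩ := Nat.exists_eq_add_of_le he
  obtain ⟨k, rfl⟩ := Nat.exists_eq_add_of_le h2.le
  refine ⟨t, k, x, y, p, by omega, pp, wall H.step (by omega)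
    (mul_ne_zero (by positivity) (pow_ne_zero _ pp.ne_zero)) ?_
    fun s h4 h5 => ⟨H.ne s, H.odd s, fun r hr hd => ?_⟩⟩
  · rw [e2, hx, hy]; nth_rewrite 3 [e1]; ring
  · rcases (Nat.Prime.dvd_mul hr).1 hd with hd | hd
    · have x0 : x ≠ 0 := by
        rintro rfl
        exact hr.one_lt.ne' (by simpa using hd)
      rw [(Nat.prime_dvd_prime_iff_eq hr Nat.prime_two).1 (hr.dvd_of_dvd_pow hd)]
      have := v2_almost H.step H.ne (i := t) (j := j) (fun s h6 h7 => hp s (by omega) h7)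
        (fun s => H.pure s p) h4 (by omega)
      exact Nat.dvd_of_factorization_pos (by omega)
    · rw [(Nat.prime_dvd_prime_iff_eq hr pp).1 (hr.dvd_of_dvd_pow hd)]
      exact Nat.dvd_of_mem_primeFactors (mem_erase.1 (hp s (by omega) (by omega))).2

theorem many {c : ℕ} (c2 : 2 ≤ c) (hc : ∀ s, W (n (s + 1)) ≤ c * W (n s))
    (hup : ∀ s r k, (n (s + k)).factorization r ≤ (n s).factorization r + c * k)
    {t : ℚ} (ht : ∀ p q, p ≠ q → ∀ k i,
      (∀ s, i ≤ s → s ≤ i + k → p ∈ OP (n s) ∧ q ∈ OP (n s)) →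
      W (n (i + k)) ≤ c * t ^ (k / 2) * W (n i)) {K : ℕ} (hK : c * t ^ K < 1) :
    ∃ N : ℕ, ∀ p i j, i ≤ j → (∀ s, i ≤ s → s ≤ j → p ∈ OP (n s)) →
      c ^ N * W (n i) < W (n j) → Rec n := by
  set G := (B ^ (c * (2 * K))) ^ (B + 1) with hG
  refine ⟨2 * K + 6 * (G + 1), fun p i j hij hp hj => ?_⟩
  set N := 2 * K + 6 * (G + 1) with hN
  have c1 : (1 : ℚ) ≤ c := by exact_mod_cast (by omega : 1 ≤ c)
  have K0 : K ≠ 0 := by rintro rfl; rw [pow_zero] at hK; linarith
  have wi := one_le_W (n i)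
  have pw : ∀ a b : ℕ, a ≤ b → (c : ℚ) ^ a * W (n i) ≤ c ^ b * W (n i) := fun a b h =>
    mul_le_mul_of_nonneg_right (pow_le_pow_right₀ c1 h) (by linarith)
  let S : ℕ → Set ℕ := fun k => {s | i ≤ s ∧ (c : ℚ) ^ k * W (n i) < W (n s)}
  let u : ℕ → ℕ := fun k => sInf (S k)
  have mj : ∀ k, k ≤ N → j ∈ S k := fun k hk => ⟨hij, (pw k N hk).trans_lt hj⟩
  have u1 : ∀ k, k ≤ N → u k ∈ S k := fun k hk => Nat.sInf_mem ⟨j, mj k hk⟩
  have u2 : ∀ k, k ≤ N → u k ≤ j := fun k hk => Nat.sInf_le (mj k hk)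
  have u3 : ∀ k s, i ≤ s → s < u k → W (n s) ≤ c ^ k * W (n i) := fun k s h1 h2 => by
    by_contra h3
    exact absurd (Nat.sInf_le (show s ∈ S k from ⟨h1, not_le.1 h3⟩)) (not_le.2 h2)
  have u4 : ∀ k, k ≤ N → i < u k := fun k hk => by
    refine (u1 k hk).1.lt_of_ne fun e => ?_
    have h1 := (u1 k hk).2
    have h2 := pw 0 k (Nat.zero_le _)
    rw [← e] at h1
    rw [pow_zero, one_mul] at h2
    linarith
  have u5 : ∀ k, k + 1 ≤ N → u k < u (k + 1) := fun k hk => by
    by_contra h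
    have h1 := (u1 (k + 1) hk).2
    obtain ⟨v, hv⟩ : ∃ v, u (k + 1) = v + 1 := ⟨u (k + 1) - 1, by have := u4 _ hk; omega⟩
    have h2 := u3 k v (by have := u4 _ hk; omega) (by omega)
    have h3 := hc v
    rw [hv, pow_succ] at h1
    nlinarith
  have u6 : ∀ d k, k + d ≤ N → u k + d ≤ u (k + d) := fun d k => by
    induction d with
    | zero => exact fun _ => le_rfl
    | succ d ih =>
      intro h
      have := ih (by omega)
      have := u5 (k + d) (by omega)
      rw [← add_assoc k]; omega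
  have u7 : ∀ a b, a < b → b ≤ N → u a < u b ∧ W (n (u a)) ≤ W (n (u b)) := fun a b h1 h2 => by
    have h3 := u6 (b - a) a (by omega)
    rw [show a + (b - a) = b by omega] at h3
    exact ⟨by omega, (u3 b _ (u1 a (by omega)).1 (by omega)).trans (u1 b h2).2.le⟩
  obtain ⟨pp, p2, -⟩ := (mem_OP (H.ne i)).1 (hp i le_rfl hij)
  have cof : ∀ k, ∃ z, 2 * K ≤ k → k ≤ N → z ≠ 0 ∧ z ≤ G ∧
      n (u k) = 2 ^ (n (u k)).factorization 2 * p ^ (n (u k)).factorization p * z := by
    intro k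
    by_cases hk : 2 * K ≤ k ∧ k ≤ N
    swap
    · exact ⟨0, fun h1 h2 => absurd ⟨h1, h2⟩ hk⟩
    obtain ⟨z, hz⟩ := split (E := c * (2 * K)) (H.ne (u k)) pp p2 H.B_pos (H.bd _) fun q hq hqp => by
      by_contra hbig
      have h1 := u6 k 0 (by omega)
      have h2 := u4 0 (by omega)
      have h6 := u2 k hk.2
      rw [zero_add] at h1
      obtain ⟨v, hv⟩ : ∃ v, u k = v + 2 * K := ⟨u k - 2 * K, by omega⟩
      have h3 := ht p q hqp.symm (2 * K) v fun s a b => ⟨hp s (by omega) (by omega), by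
        refine mem_of_val (mem_erase.1 hq).1 ?_
        have h7 := hup s q (u k - s)
        rw [show s + (u k - s) = u k by omega] at h7
        have := Nat.mul_le_mul_left c (show u k - s ≤ 2 * K by omega)
        omega⟩
      rw [← hv, Nat.mul_div_cancel_left _ two_pos] at h3
      have h4 := u3 k v (by omega) (by omega)
      have h5 := (u1 k hk.2).2
      have := one_le_W (n v)
      nlinarith
    exact ⟨z, fun _ _ => hz⟩
  choose z hz using cof
  obtain ⟨y, -, hy⟩ := exists_lt_card_fiber_of_mul_lt_card_of_maps_to (s := Icc (2 * K) N)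
    (t := range (G + 1) ×ˢ range 3) (n := 2)
    (f := fun k => (z k, min ((n (u k)).factorization 2) 2))
    (fun k hk => by
      have := hz k (mem_Icc.1 hk).1 (mem_Icc.1 hk).2
      simp only [mem_product, mem_range]; omega)
    (by simp only [card_product, card_range, Nat.card_Icc]; omega)
  obtain ⟨T, hT, hT3⟩ := exists_subset_card_eq (show 3 ≤ _ from hy)
  obtain ⟨a, b, d, hab, hbd, rfl⟩ := sorted3 hT3
  obtain ⟨ma, ea⟩ := mem_filter.1 (hT (show a ∈ _ by simp))
  obtain ⟨mb, eb⟩ := mem_filter.1 (hT (show b ∈ _ by simp))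
  obtain ⟨md, ed⟩ := mem_filter.1 (hT (show d ∈ _ by simp))
  rw [mem_Icc] at ma mb md
  have fin : ∀ a b, 2 * K ≤ a → a < b → b ≤ N →
      (z a, min ((n (u a)).factorization 2) 2) = (z b, min ((n (u b)).factorization 2) 2) →
      (n (u a)).factorization 2 ≤ (n (u b)).factorization 2 → Rec n := by
    intro a b h1 h2 h3 e hv
    obtain ⟨e1, e2⟩ := Prod.mk.inj e
    obtain ⟨a1, -, a2⟩ := hz a h1 (by omega)
    obtain ⟨-, -, b2⟩ := hz b (by omega) h3
    exact H.close hp (u1 a (by omega)).1 (u7 a b h2 h3).1 (u2 b h3) a1 a2 (e1 ▸ b2)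
      (u7 a b h2 h3).2 hv e2
  by_cases hv : (n (u a)).factorization 2 ≤ (n (u b)).factorization 2
  · exact fin a b ma.1 hab mb.2 (ea.trans eb.symm) hv
  · refine fin b d mb.1 hbd md.2 (eb.trans ed.symm) ?_
    have := v2_almost H.step H.ne (i := u a) (j := j)
      (fun s h6 h7 => hp s ((u1 a ma.2).1.trans h6) h7) (fun s => H.pure s p)
      (u7 a d (hab.trans hbd) md.2).1.le (u2 d md.2)
    omega

theorem big {s E : ℕ} (h : (3 : ℚ) ^ E * ((B ^ E) ^ (B + 1) : ℕ) < W (n s)) :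
    ∃ r ∈ OP (n s), E < (n s).factorization r := by
  by_contra hc
  push Not at hc
  exact absurd (W_box (H.ne s) H.B_pos (H.bd s) hc) (not_le.2 h)

theorem unbounded (h : ∀ M : ℕ, ∃ s, M < W (n s)) : Rec n := by
  classical
  obtain ⟨c, c2, hc, hup⟩ := H.consts
  obtain ⟨t, t0, t1, ht⟩ := H.decay c2 hc
  have c1 : (1 : ℚ) < c := by exact_mod_cast (by omega : 1 < c)
  have small : ∀ x : ℚ, 0 < x → ∃ K, x * t ^ K < 1 := fun x hx => by
    obtain ⟨K, hK⟩ := exists_pow_lt_of_lt_one (inv_pos.2 hx) t1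
    exact ⟨K, by rwa [← lt_inv_mul_iff₀ hx, mul_one]⟩
  obtain ⟨K, hK⟩ := small c (by linarith)
  obtain ⟨N, hN⟩ := H.many c2 hc hup ht hK
  obtain ⟨L, hL⟩ := small (c ^ (N + 1)) (by positivity)
  have L0 : L ≠ 0 := by
    rintro rfl
    have := one_le_pow₀ c1.le (n := N + 1)
    rw [pow_zero] at hL; linarith
  have grow : ∀ s, W (n s) ≤ c ^ s * W (n 0) := fun s => by
    induction s with
    | zero => simp
    | succ s ih => rw [pow_succ]; nlinarith [hc s]
  set g : ℕ → ℚ := fun E => (3 : ℚ) ^ E * ((B ^ E) ^ (B + 1) : ℕ) with hg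
  have g0 : ∀ E, 0 ≤ g E := fun E => by positivity
  have w0 := one_le_W (n 0)
  have cN : (0 : ℚ) < c ^ N := by positivity
  obtain ⟨M, hM⟩ := exists_nat_ge (c ^ (2 * L) * W (n 0) + c ^ N * W (n 0) + g (c * (2 * L)) +
    c ^ N * g (c + 2 * L))
  have a1 : (0 : ℚ) ≤ c ^ (2 * L) * W (n 0) := by positivity
  have a2 : (0 : ℚ) ≤ c ^ N * W (n 0) := by positivity
  have a3 := g0 (c * (2 * L))
  have a4 := mul_nonneg cN.le (g0 (c + 2 * L))
  set j := Nat.find (h M)
  have j1 : M < W (n j) := Nat.find_spec (h M)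
  have j2 : ∀ s, s < j → W (n s) ≤ M := fun s hs => not_lt.1 (Nat.find_min (h M) hs)
  have j3 : 2 * L ≤ j := by
    by_contra hj
    have h1 := grow j
    have h2 : (c : ℚ) ^ j * W (n 0) ≤ c ^ (2 * L) * W (n 0) :=
      mul_le_mul_of_nonneg_right (pow_le_pow_right₀ c1.le (by omega)) (by linarith)
    linarith
  obtain ⟨p, mp, hp⟩ := H.big (s := j) (E := c * (2 * L)) (by simp only [hg] at a3 hM; linarith)
  have p2 := (mem_erase.1 mp).1
  have ex : ∀ s, j - 2 * L ≤ s → s ≤ j → p ∈ OP (n s) := fun s h1 h2 => by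
    refine mem_of_val p2 ?_
    have h7 := hup s p (j - s)
    rw [show s + (j - s) = j by omega] at h7
    have := Nat.mul_le_mul_left c (show j - s ≤ 2 * L by omega)
    omega
  have hex : ∃ i, ∀ s, i ≤ s → s ≤ j → p ∈ OP (n s) := ⟨_, ex⟩
  have i1 := Nat.find_spec hex
  have i2 := Nat.find_min' hex ex
  have i3 : ∀ v, v < Nat.find hex → ¬ ∀ s, v ≤ s → s ≤ j → p ∈ OP (n s) :=
    fun v hv => Nat.find_min hex hv
  generalize Nat.find hex = i at i1 i2 i3
  by_cases hi : c ^ N * W (n i) < W (n j)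
  · exact hN p i j (by omega) i1 hi
  rcases i with _ | i
  · exact absurd (by linarith) hi
  have np : (n i).factorization p = 0 := by
    by_contra h0
    refine i3 i (by omega) fun s h1 h2 => ?_
    rcases h1.lt_or_eq with h3 | h3
    · exact i1 s h3 h2
    · rw [← h3]; exact mem_of_val p2 (by omega)
  obtain ⟨q, mq, hq⟩ := H.big (s := i + 1) (E := c + 2 * L) (by
    refine lt_of_mul_lt_mul_left ?_ cN.le
    simp only [hg] at a4 hM; linarith)
  have q2 := (mem_erase.1 mq).1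
  have pq : p ≠ q := by
    rintro rfl
    have := hup i p 1
    omega
  have h1 := ht p q pq (2 * L) (i + 1) fun s a b => ⟨i1 s a (by omega), by
    refine mem_of_val q2 ?_
    have h7 := H.down (i + 1) (s - (i + 1)) q2
    rw [show i + 1 + (s - (i + 1)) = s by omega] at h7
    omega⟩
  rw [Nat.mul_div_cancel_left _ two_pos] at h1
  refine hN p (i + 1 + 2 * L) j (by omega) (fun s a b => i1 s (by omega) b) ?_
  have h2 := j2 (i + 1) (by omega)
  have h3 := one_le_W (n (i + 1))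
  calc (c : ℚ) ^ N * W (n (i + 1 + 2 * L)) ≤ c ^ N * (c * t ^ L * W (n (i + 1))) := by gcongr
    _ = c ^ (N + 1) * t ^ L * W (n (i + 1)) := by ring
    _ ≤ W (n (i + 1)) := by nlinarith
    _ < _ := by linarith

theorem main : Rec n := by
  by_cases h : ∀ M : ℕ, ∃ s, M < W (n s)
  · exact H.unbounded h
  · push Not at h
    obtain ⟨M, hM⟩ := h
    exact H.bounded hM

end Orb

theorem orb1488 : ∀ s, F^[s + 7] 1488 = 2 * F^[s] 1488 := by
  have st : ∀ (l : List ℕ) (N M : ℕ), ck l N M = true → F N = M := fun l N M h => by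
    simp only [ck, Bool.and_eq_true, List.all_eq_true, Nat.beq_eq] at h
    simpa using step23 l (fun q hq => isP_spec (h.1.1 q hq)) 0 0 h.1.2 h.2 (Or.inl rfl) (Or.inl rfl)
  have e0 := st [2, 2, 2, 2, 3, 31] 1488 1776 (by decide +kernel)
  have e1 := st [2, 2, 2, 2, 3, 37] 1776 2112 (by decide +kernel)
  have e2 := st [2, 2, 2, 2, 2, 2, 3, 11] 2112 2624 (by decide +kernel)
  have e3 := st [2, 2, 2, 2, 2, 2, 41] 2624 2656 (by decide +kernel)
  have e4 := st [2, 2, 2, 2, 2, 83] 2656 2672 (by decide +kernel)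
  have e5 := st [2, 2, 2, 2, 167] 2672 2680 (by decide +kernel)
  have e6 := st [2, 2, 2, 5, 67] 2680 2976 (by decide +kernel)
  have ok : ∀ m p : ℕ, m ≠ 0 → p.Prime → p ≠ 2 → p ∣ m → 2 ∣ m →
      m ≠ 0 ∧ (OP m).Nonempty ∧ ∀ r, r.Prime → r ∣ 2 → r ∣ m := fun m p h0 h1 h2 h3 h4 =>
    ⟨h0, ⟨p, (mem_OP h0).2 ⟨h1, h2, h3⟩⟩, fun r _ hr => hr.trans h4⟩
  intro s
  refine wall (n := fun s => F^[s] 1488) (t := 0) (fun s => Function.iterate_succ_apply' _ _ _)
    (by norm_num) two_ne_zero ?_ (fun s _ hs => ?_) s (Nat.zero_le _)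
  · simp only [zero_add, Function.iterate_succ_apply, Function.iterate_zero, id, e0, e1, e2, e3,
      e4, e5, e6]
  · have hs7 : s < 7 := hs
    interval_cases s <;>
      simp only [Function.iterate_succ_apply, Function.iterate_zero, id, e0, e1, e2, e3, e4, e5]
    · exact ok _ 3 (by norm_num) (by norm_num) (by norm_num) (by norm_num) (by norm_num)
    · exact ok _ 3 (by norm_num) (by norm_num) (by norm_num) (by norm_num) (by norm_num)
    · exact ok _ 3 (by norm_num) (by norm_num) (by norm_num) (by norm_num) (by norm_num)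
    · exact ok _ 41 (by norm_num) (by norm_num) (by norm_num) (by norm_num) (by norm_num)
    · exact ok _ 83 (by norm_num) (by norm_num) (by norm_num) (by norm_num) (by norm_num)
    · exact ok _ 167 (by norm_num) (by norm_num) (by norm_num) (by norm_num) (by norm_num)
    · exact ok _ 5 (by norm_num) (by norm_num) (by norm_num) (by norm_num) (by norm_num)

theorem two_le_card {m : ℕ} (h0 : m ≠ 0) (h1 : m ≠ 1) (h2 : ¬ IsPrimePow m) :
    2 ≤ m.primeFactors.card := by
  rw [isPrimePow_iff_card_primeFactors_eq_one] at h2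
  have : m.primeFactors.card ≠ 0 := by
    rw [card_ne_zero, Nat.nonempty_primeFactors]; omega
  omega

theorem OP_nonempty {m : ℕ} (h : 2 ≤ m.primeFactors.card) : (OP m).Nonempty := by
  have := pred_card_le_card_erase (s := m.primeFactors) (a := 2)
  exact card_pos.1 (by unfold OP; omega)

theorem good_of_OP {m : ℕ} (h0 : m ≠ 0) (h : ∀ r ∈ OP m, r ≤ 7) : Good m := by
  obtain ⟨a, m1, n1, e1⟩ := Nat.exists_eq_pow_mul_and_not_dvd h0 2 (by norm_num)
  have z1 : m1 ≠ 0 := by rintro rfl; simp at n1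
  obtain ⟨b, m2, n2, e2⟩ := Nat.exists_eq_pow_mul_and_not_dvd z1 3 (by norm_num)
  have z2 : m2 ≠ 0 := by rintro rfl; simp at n2
  have d2 : m2 ∣ m1 := Dvd.intro_left _ e2.symm
  have d1 : m1 ∣ m := Dvd.intro_left _ e1.symm
  obtain ⟨c, e, e3⟩ := two_primes z2 (by norm_num : Nat.Prime 5) (by norm_num : Nat.Prime 7)
    fun r hr hd => by
      have r2 : r ≠ 2 := by rintro rfl; exact n1 (hd.trans d2)
      have r3 : r ≠ 3 := by rintro rfl; exact n2 hd
      have hm := (mem_OP h0).2 ⟨hr, r2, hd.trans (d2.trans d1)⟩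
      have := h r hm
      have := OP_odd hm
      omega
  have := good_smooth a b c e 1 le_rfl (by norm_num)
  rwa [show 2 ^ a * 3 ^ b * 5 ^ c * 7 ^ e * 1 = m by rw [e1, e2, e3]; ring] at this

theorem smooth_wall {n0 B : ℕ} (h0 : n0 ≠ 0)
    (h1 : ∀ j, F^[j] n0 ≠ 1 ∧ ¬ IsPrimePow (F^[j] n0))
    (hB : ∀ j r, r.Prime → r ∣ F^[j] n0 → r ≤ B) :
    ∃ i k x y p, 1 ≤ k ∧ Nat.Prime p ∧ 2 ≤ 2 ^ x * p ^ y ∧
      ∀ s, i ≤ s → F^[s + k] n0 = 2 ^ x * p ^ y * F^[s] n0 := by
  have ne : ∀ s, F^[s] n0 ≠ 0 := fun s => by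
    induction s with
    | zero => exact h0
    | succ s ih =>
      obtain ⟨p, hp⟩ := OP_nonempty (two_le_card ih (h1 s).1 (h1 s).2)
      rw [Function.iterate_succ_apply']; exact F_ne ih hp
  have two := fun s => two_le_card (ne s) (h1 s).1 (h1 s).2
  by_cases hg : ∃ s, Good (F^[s] n0)
  · obtain ⟨s, ⟨j, hj⟩ | ⟨j, k, hj⟩⟩ := hg
    · rw [← Function.iterate_add_apply] at hj
      exact absurd hj (not_or.2 (h1 _))
    · rw [← Function.iterate_add_apply] at hj
      refine ⟨j + s, 7, 1, 0, 2, by norm_num, Nat.prime_two, by norm_num, fun u hu => ?_⟩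
      obtain ⟨v, rfl⟩ := Nat.exists_eq_add_of_le' hu
      have e : ∀ v, F^[v + (j + s)] n0 = F^[v + k] 1488 := fun v => by
        rw [Function.iterate_add_apply, hj, ← Function.iterate_add_apply]
      rw [show v + (j + s) + 7 = v + 7 + (j + s) by ring, e, e,
        show v + 7 + k = v + k + 7 by ring, orb1488]
      norm_num
  push Not at hg
  have H : Orb (fun s => F^[s] n0) B :=
    { step := fun s => Function.iterate_succ_apply' _ _ _
      ne := ne
      odd := fun s => OP_nonempty (two s)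
      two := two
      bd := fun s r hr =>
        hB s r (Nat.prime_of_mem_primeFactors hr) (Nat.dvd_of_mem_primeFactors hr)
      pure := fun s p hT => by
        refine ⟨?_, ?_⟩
        · by_contra h2
          have := two s
          rw [pf_odd h2, hT, card_singleton] at this
          omega
        · by_contra h11
          refine hg s (good_of_OP (ne s) fun r hr => ?_)
          have pr := ((mem_OP (ne s)).1 hr).1
          have := OP_odd hr
          have e : r = p := by simpa [hT] using hr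
          have : r ≠ 9 := by rintro rfl; norm_num at pr
          omega
      n37 := fun s hT => hg s (good_of_OP (ne s) fun r hr => by
        rw [hT] at hr
        simp only [mem_insert, mem_singleton] at hr
        omega) }
  obtain ⟨i, k, x, y, p, hk, hp, h⟩ := H.main
  refine ⟨i, k, x, y, p, hk, hp, ?_, h⟩
  have e : F^[i + k] n0 = 2 ^ x * p ^ y * F^[i] n0 := h i le_rfl
  have lt : F^[i] n0 < F^[i + k] n0 := H.mono (show i < i + k by omega)
  generalize 2 ^ x * p ^ y = d at e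
  rcases d with _ | _ | d <;> omega

end Pool.Agent.MP_bacbeb_nt.Wall
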